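import Pool.Agent.P.MP_52b1ec_lc.Effros

namespace Pool.Agent.P.MP_52b1ec_lc

open Topology Filter Set

/-- index set of the codes -/
abbrev Idx : Type := Bool × (ℕ ⊕ (ℕ × (Σ n : ℕ, Fin n → ℕ)))

noncomputable def cd : Idx → ℕ := Classical.choose (exists_injective_nat Idx)

lemma cd_inj : Function.Injective cd := Classical.choose_spec (exists_injective_nat Idx)

noncomputable def kap (b : Bool) (m n : ℕ) (f : ℕ → ℕ) : ℕ :=
  cd (b, Sum.inr (m, ⟨n, fun i => f i⟩))

/-- evaluation of the coded continuous map -/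
noncomputable def ev (b : Bool) (w f : ℕ → ℕ) : ℕ → ℕ :=
  fun m => w (kap b m (w (cd (b, Sum.inl m))) f)

lemma continuous_kap (b : Bool) (m : ℕ) :
    Continuous (fun p : ℕ × (ℕ → ℕ) => kap b m p.1 p.2) := by
  rw [continuous_prod_of_discrete_left]
  intro n
  have h1 : Continuous (fun f : ℕ → ℕ => (fun i : Fin n => f i)) := by fun_prop
  have h2 : Continuous (fun s : Fin n → ℕ => cd (b, Sum.inr (m, ⟨n, s⟩))) :=
    continuous_of_discreteTopology
  exact h2.comp h1

lemma continuous_ev (b : Bool) : Continuous (fun p : (ℕ → ℕ) × (ℕ → ℕ) => ev b p.1 p.2) := by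
  rw [continuous_pi_iff]
  intro m
  have h1 : Continuous (fun p : (ℕ → ℕ) × (ℕ → ℕ) => (p.1 (cd (b, Sum.inl m)), p.2)) := by
    fun_prop
  exact continuous_evalN.comp (continuous_fst.prodMk ((continuous_kap b m).comp h1))

lemma Continuous.ev' {X : Type*} [TopologicalSpace X] (b : Bool) {w f : X → ℕ → ℕ}
    (hw : Continuous w) (hf : Continuous f) : Continuous (fun x => ev b (w x) (f x)) :=
  (continuous_ev b).comp (hw.prodMk hf)

lemma continuous_compN {X : Type*} [TopologicalSpace X] {w f : X → ℕ → ℕ}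
    (hw : Continuous w) (hf : Continuous f) : Continuous (fun x => (w x) ∘ (f x)) := by
  rw [continuous_pi_iff]
  intro n
  exact continuous_evalN.comp (hw.prodMk ((continuous_apply n).comp hf))

/-- the Borel condition -/
def Cond (b : Bool) (w : ℕ → ℕ) (G H : CS) : Prop :=
  (∀ g ∈ G, ∀ h ∈ G, ev b w (ap (g * h)) = ev b w (ap g) ∘ ev b w (ap h)) ∧
  (ev b w (ap 1) = id) ∧
  (∀ m, ∀ s : Fin m → ℕ, (∃ g ∈ G, ∀ i : Fin m, ev b w (ap g) i = s i) →
    ∃ h ∈ H, ∀ i : Fin m, ap h i = s i) ∧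
  (∀ g ∈ G, ev (!b) w (ev b w (ap g)) = ap g)

lemma measurableSet_cond {Ω : Type*} [MeasurableSpace Ω] (b : Bool) {ζ : Ω → ℕ → ℕ}
    {G H : Ω → CS} (hζ : Measurable ζ) (hG : Measurable G) (hH : Measurable H) :
    MeasurableSet {ω | Cond b (ζ ω) (G ω) (H ω)} := by
  have c1 : Continuous (fun p : (ℕ → ℕ) × SInf × SInf => ap p.2.1) :=
    continuous_ap.comp (by fun_prop)
  have c2 : Continuous (fun p : (ℕ → ℕ) × SInf × SInf => ap p.2.2) :=
    continuous_ap.comp (by fun_prop)
  have c3 : Continuous (fun p : (ℕ → ℕ) × SInf × SInf => ap (p.2.1 * p.2.2)) :=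
    continuous_ap.comp (by fun_prop)
  simp only [Cond, ofPred_and]
  refine MeasurableSet.inter ?_ (MeasurableSet.inter ?_ (MeasurableSet.inter ?_ ?_))
  · have hW : IsClosed {p : (ℕ → ℕ) × SInf × SInf |
        ev b p.1 (ap (p.2.1 * p.2.2)) = ev b p.1 (ap p.2.1) ∘ ev b p.1 (ap p.2.2)} :=
      isClosed_eq (Continuous.ev' b continuous_fst c3)
        (continuous_compN (Continuous.ev' b continuous_fst c1) (Continuous.ev' b continuous_fst c2))
    exact measurableSet_all2 hζ hG hG hW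
  · have hW : IsClosed {w : ℕ → ℕ | ev b w (ap 1) = id} :=
      isClosed_eq (Continuous.ev' b continuous_id continuous_const) continuous_const
    exact hζ hW.measurableSet
  · simp only [ofPred_forall]
    refine MeasurableSet.iInter fun m => MeasurableSet.iInter fun s => ?_
    have hW : IsOpen {p : (ℕ → ℕ) × SInf × SInf | ∀ i : Fin m, ev b p.1 (ap p.2.1) i = s i} := by
      simp only [ofPred_forall]
      refine isOpen_iInter_of_finite fun i => ?_
      have hc : Continuous (fun p : (ℕ → ℕ) × SInf × SInf => ev b p.1 (ap p.2.1) i) :=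
        (continuous_apply (i : ℕ)).comp (Continuous.ev' b continuous_fst c1)
      exact (isOpen_discrete {s i}).preimage hc
    have hU : IsOpen {h : SInf | ∀ i : Fin m, ap h i = s i} := by
      simp only [ofPred_forall]
      refine isOpen_iInter_of_finite fun i => ?_
      exact (isOpen_discrete {s i}).preimage (continuous_ap_at i)
    have h1 := measurableSet_hit2 hζ hG hG hW
    have h2 := hH (measurableSet_hit hU)
    convert h1.compl.union h2 using 1
    ext ω
    simp only [mem_ofPred_eq, mem_union, mem_compl_iff, mem_preimage]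
    constructor
    · intro hh
      by_cases hx : ∃ g ∈ G ω, ∀ i : Fin m, ev b (ζ ω) (ap g) i = s i
      · exact Or.inr (hh hx)
      · left
        rintro ⟨g, hg, -, -, hg'⟩
        exact hx ⟨g, hg, hg'⟩
    · rintro (hh | hh) ⟨g, hg, hg'⟩
      · exact (hh ⟨g, hg, g, hg, hg'⟩).elim
      · exact hh
  · have hW : IsClosed {p : (ℕ → ℕ) × SInf × SInf |
        ev (!b) p.1 (ev b p.1 (ap p.2.1)) = ap p.2.1} :=
      isClosed_eq (Continuous.ev' _ continuous_fst (Continuous.ev' b continuous_fst c1)) c1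
    convert measurableSet_all2 hζ hG hG hW using 1
    ext ω
    simp only [mem_ofPred_eq]
    exact ⟨fun hh g hg _ _ => hh g hg, fun hh g hg => hh g hg g hg⟩

lemma Cond.exists_image {b : Bool} {w : ℕ → ℕ} {G H : CS} (hc : Cond b w G H) (g : SInf)
    (hg : g ∈ G) : ∃ h ∈ H, ap h = ev b w (ap g) := by
  obtain ⟨h1, h2, h3, -⟩ := hc
  have hgi : g⁻¹ ∈ G := inv_mem hg
  have e1 := h1 g hg g⁻¹ hgi
  have e2 := h1 g⁻¹ hgi g hg
  rw [mul_inv_cancel, h2] at e1
  rw [inv_mul_cancel, h2] at e2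
  let σ : Equiv.Perm ℕ := ⟨ev b w (ap g), ev b w (ap g⁻¹), fun n => (congrFun e2 n).symm,
    fun n => (congrFun e1 n).symm⟩
  refine ⟨SInf.ofPerm σ, ?_, rfl⟩
  have hcl : IsClosed (H : Set SInf) := H.isClosed'
  have : SInf.ofPerm σ ∈ closure (H : Set SInf) := by
    rw [SInf_mem_closure]
    intro m
    obtain ⟨h, hh, hh'⟩ := h3 m (fun i => ev b w (ap g) i) ⟨g, hg, fun _ => rfl⟩
    exact ⟨h, hh, fun i hi => hh' ⟨i, hi⟩⟩
  rwa [hcl.closure_eq] at this

lemma topIso_of_cond {w : ℕ → ℕ} {G H : CS} (h1 : Cond true w G H) (h2 : Cond false w H G) :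
    TopIso G H := by
  choose f hf hf' using h1.exists_image
  choose k hk hk' using h2.exists_image
  let F : G.toSubgroup → H.toSubgroup := fun g => ⟨f g.1 g.2, hf g.1 g.2⟩
  let K : H.toSubgroup → G.toSubgroup := fun g => ⟨k g.1 g.2, hk g.1 g.2⟩
  have hF : ∀ g, ap (F g).1 = ev true w (ap g.1) := fun g => hf' g.1 g.2
  have hK : ∀ g, ap (K g).1 = ev false w (ap g.1) := fun g => hk' g.1 g.2
  refine ⟨{ toFun := F, invFun := K, left_inv := ?_, right_inv := ?_, map_mul' := ?_,
            continuous_toFun := ?_, continuous_invFun := ?_ }⟩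
  · intro g
    apply Subtype.ext
    apply ap_injective
    rw [hK, hF]
    exact h1.2.2.2 g.1 g.2
  · intro g
    apply Subtype.ext
    apply ap_injective
    rw [hF, hK]
    exact h2.2.2.2 g.1 g.2
  · intro a b
    apply Subtype.ext
    apply ap_injective
    rw [hF]
    have : ap (F a * F b).1 = ap (F a).1 ∘ ap (F b).1 := rfl
    rw [this, hF, hF]
    exact h1.1 a.1 a.2 b.1 b.2
  · apply continuous_induced_rng.2
    rw [isInducing_ap.continuous_iff]
    have : ap ∘ Subtype.val ∘ F = fun g => ev true w (ap g.1) := funext hF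
    rw [this]
    exact Continuous.ev' _ continuous_const (continuous_ap.comp continuous_subtype_val)
  · apply continuous_induced_rng.2
    rw [isInducing_ap.continuous_iff]
    have : ap ∘ Subtype.val ∘ K = fun g => ev false w (ap g.1) := funext hK
    rw [this]
    exact Continuous.ev' _ continuous_const (continuous_ap.comp continuous_subtype_val)

/-- half of a code for a continuous homomorphism -/
lemma exists_half_code {G H : Subgroup SInf} (θ : G →* H) (hθ : Continuous θ) :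
    ∃ v : (ℕ ⊕ (ℕ × (Σ n : ℕ, Fin n → ℕ))) → ℕ, ∀ (g : G) (m : ℕ),
      v (Sum.inr (m, ⟨v (Sum.inl m), fun i => ap g i⟩)) = ap (θ g) m := by
  classical
  choose γ hγ using (hom_continuous_iff θ).1 hθ
  let val : ℕ × (Σ n : ℕ, Fin n → ℕ) → ℕ := fun p =>
    if h : ∃ g : G, ∀ i : Fin p.2.1, ap g i = p.2.2 i then ap (θ h.choose) p.1 else 0
  refine ⟨Sum.elim (fun m => γ (m + 1)) val, fun g m => ?_⟩
  simp only [Sum.elim_inr, Sum.elim_inl]
  have hex : ∃ g' : G, ∀ i : Fin (γ (m + 1)), ap g' i = ap g i := ⟨g, fun _ => rfl⟩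
  have : val (m, ⟨γ (m + 1), fun i => ap g i⟩) = ap (θ hex.choose) m := dif_pos hex
  rw [this]
  have hs := hex.choose_spec
  set g' := hex.choose
  have h1 : ∀ i < γ (m + 1), ap (g⁻¹ * g' : G) i = i := by
    intro i hi
    show ap (g.1⁻¹ * g'.1) i = i
    rw [ap_mul, hs ⟨i, hi⟩, ap_inv_ap]
  have h2 := hγ (m + 1) _ h1 m (Nat.lt_succ_self m)
  rw [map_mul, map_inv] at h2
  have h3 : ap ((θ g).1⁻¹ * (θ g').1) m = m := h2
  rw [ap_mul] at h3
  have := congrArg (ap (θ g).1) h3
  rwa [ap_ap_inv] at this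

lemma cond_of_code {b : Bool} {w : ℕ → ℕ} {G H : CS} (θ : G.toSubgroup ≃* H.toSubgroup)
    (h1 : ∀ g : G.toSubgroup, ev b w (ap g) = ap (θ g))
    (h2 : ∀ g : H.toSubgroup, ev (!b) w (ap g) = ap (θ.symm g)) : Cond b w G H := by
  refine ⟨fun g hg h hh => ?_, ?_, ?_, fun g hg => ?_⟩
  · have e1 := h1 ⟨g, hg⟩
    have e2 := h1 ⟨h, hh⟩
    have e3 := h1 (⟨g, hg⟩ * ⟨h, hh⟩)
    rw [map_mul] at e3
    rw [e1, e2]
    exact e3
  · have e := h1 1
    rw [map_one] at e
    exact e
  · rintro m s ⟨g, hg, hs⟩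
    refine ⟨(θ ⟨g, hg⟩).1, (θ ⟨g, hg⟩).2, fun i => ?_⟩
    rw [← hs i, h1 ⟨g, hg⟩]
  · rw [h1 ⟨g, hg⟩, h2, θ.symm_apply_apply]

lemma cond_of_topIso {G H : CS} (h : TopIso G H) :
    ∃ w, Cond true w G H ∧ Cond false w H G := by
  obtain ⟨e⟩ := h
  obtain ⟨v1, hv1⟩ := exists_half_code (e : G.toSubgroup →* H.toSubgroup) (map_continuous e)
  obtain ⟨v2, hv2⟩ := exists_half_code (e.symm : H.toSubgroup →* G.toSubgroup)
    (map_continuous e.symm)
  let V : Idx → ℕ := fun p => if p.1 then v1 p.2 else v2 p.2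
  let w : ℕ → ℕ := Function.extend cd V 0
  have hw : ∀ p, w (cd p) = V p := fun p => cd_inj.extend_apply _ _ _
  have h1 : ∀ g : G.toSubgroup, ev true w (ap g) = ap (e g) := by
    intro g
    funext m
    have e1 : w (cd (true, Sum.inl m)) = v1 (Sum.inl m) := by rw [hw]; simp [V]
    unfold ev
    rw [e1]
    simp only [kap, hw, V, if_true]
    exact hv1 g m
  have h2 : ∀ g : H.toSubgroup, ev false w (ap g) = ap (e.symm g) := by
    intro g
    funext m
    have e1 : w (cd (false, Sum.inl m)) = v2 (Sum.inl m) := by rw [hw]; simp [V]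
    unfold ev
    rw [e1]
    simp only [kap, hw, V, Bool.false_eq_true, if_false]
    exact hv2 g m
  exact ⟨w, cond_of_code e.toMulEquiv h1 h2, cond_of_code e.symm.toMulEquiv h2 h1⟩

theorem isAnalyticEqv_isoOn (C : Set CS) : IsAnalyticEqv (IsoOn C) := by
  refine ⟨⟨fun G => topIso_equivalence.refl G.1, fun h => topIso_equivalence.symm h,
    fun h h' => topIso_equivalence.trans h h'⟩,
    {p | Cond true p.2 p.1.1.1 p.1.2.1 ∧ Cond false p.2 p.1.2.1 p.1.1.1}, ?_, ?_⟩
  · have hG : Measurable (fun p : (C × C) × (ℕ → ℕ) => p.1.1.1) := by fun_prop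
    have hH : Measurable (fun p : (C × C) × (ℕ → ℕ) => p.1.2.1) := by fun_prop
    exact (measurableSet_cond true measurable_snd hG hH).inter
      (measurableSet_cond false measurable_snd hH hG)
  · intro G H
    exact ⟨fun h => cond_of_topIso h, fun ⟨w, h1, h2⟩ => topIso_of_cond h1 h2⟩

end Pool.Agent.P.MP_52b1ec_lc
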