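import Pool.Agent.P.MP_52b1ec_lc.Defs

namespace Pool.Agent.P.MP_52b1ec_lc

open Topology Filter Set

/-- underlying permutation -/
def SInf.toPerm (g : SInf) : Equiv.Perm ℕ := g

/-- a permutation as an element of `SInf` -/
def SInf.ofPerm (g : Equiv.Perm ℕ) : SInf := g

/-- underlying function -/
def ap (g : SInf) : ℕ → ℕ := fun n => g.toPerm n

@[simp] lemma ap_ofPerm (g : Equiv.Perm ℕ) (n : ℕ) : ap (SInf.ofPerm g) n = g n := rfl

@[simp] lemma ap_mul (g h : SInf) (n : ℕ) : ap (g * h) n = ap g (ap h n) := rfl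

@[simp] lemma ap_one (n : ℕ) : ap 1 n = n := rfl

@[simp] lemma ap_inv_ap (g : SInf) (n : ℕ) : ap g⁻¹ (ap g n) = n := by
  rw [← ap_mul, inv_mul_cancel, ap_one]

@[simp] lemma ap_ap_inv (g : SInf) (n : ℕ) : ap g (ap g⁻¹ n) = n := by
  rw [← ap_mul, mul_inv_cancel, ap_one]

lemma ap_injective : Function.Injective ap := by
  intro g h e
  exact Equiv.ext (fun n => congrFun e n)

lemma ap_inj (g : SInf) : Function.Injective (ap g) := g.toPerm.injective

lemma isInducing_ap : IsInducing ap := ⟨rfl⟩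

lemma isEmbedding_ap : IsEmbedding ap := ⟨isInducing_ap, ap_injective⟩

lemma continuous_ap : Continuous ap := isInducing_ap.continuous

lemma continuous_ap_at (n : ℕ) : Continuous (fun g => ap g n) :=
  (continuous_apply n).comp continuous_ap

lemma continuous_SInf_iff {X : Type*} [TopologicalSpace X] {f : X → SInf} :
    Continuous f ↔ ∀ n, Continuous (fun x => ap (f x) n) := by
  rw [isInducing_ap.continuous_iff, continuous_pi_iff]
  rfl

instance : SecondCountableTopology SInf := isInducing_ap.secondCountableTopology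

instance : T2Space SInf := isEmbedding_ap.t2Space

lemma continuous_evalN : Continuous (fun p : (ℕ → ℕ) × ℕ => p.1 p.2) := by
  rw [continuous_prod_of_discrete_right]
  intro n
  exact continuous_apply n

lemma baire_mem_nhds {U : Set (ℕ → ℕ)} {f : ℕ → ℕ} :
    U ∈ 𝓝 f ↔ ∃ n, ∀ h : ℕ → ℕ, (∀ i < n, h i = f i) → h ∈ U := by
  constructor
  · intro hU
    rw [nhds_pi, Filter.mem_pi] at hU
    obtain ⟨I, hI, t, ht, hsub⟩ := hU
    obtain ⟨n, hn⟩ := hI.bddAbove
    refine ⟨n + 1, fun h hh => hsub fun i hi => ?_⟩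
    rw [hh i (Nat.lt_succ_of_le (hn hi))]
    exact mem_of_mem_nhds (ht i)
  · rintro ⟨n, hn⟩
    have : {h : ℕ → ℕ | ∀ i < n, h i = f i} ∈ 𝓝 f := by
      have : {h : ℕ → ℕ | ∀ i < n, h i = f i} = ⋂ i ∈ Set.Iio n, {h : ℕ → ℕ | h i = f i} := by
        ext h; simp
      rw [this, Filter.biInter_mem (Set.finite_Iio n)]
      intro i _
      have hc : Continuous (fun h : ℕ → ℕ => h i) := continuous_apply i
      exact ((isOpen_discrete {f i}).preimage hc).mem_nhds rfl
    exact Filter.mem_of_superset this hn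

lemma SInf_mem_nhds {U : Set SInf} {g : SInf} :
    U ∈ 𝓝 g ↔ ∃ n, ∀ h : SInf, (∀ i < n, ap h i = ap g i) → h ∈ U := by
  rw [isInducing_ap.nhds_eq_comap, Filter.mem_comap]
  constructor
  · rintro ⟨t, ht, hsub⟩
    obtain ⟨n, hn⟩ := baire_mem_nhds.1 ht
    exact ⟨n, fun h hh => hsub (hn _ hh)⟩
  · rintro ⟨n, hn⟩
    exact ⟨{h | ∀ i < n, h i = ap g i}, baire_mem_nhds.2 ⟨n, fun h hh => hh⟩, fun h hh => hn h hh⟩

lemma SInf_mem_closure {S : Set SInf} {g : SInf} :
    g ∈ closure S ↔ ∀ n, ∃ h ∈ S, ∀ i < n, ap h i = ap g i := by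
  rw [mem_closure_iff_nhds]
  constructor
  · intro H n
    obtain ⟨h, hh, hS⟩ := H {h | ∀ i < n, ap h i = ap g i} (SInf_mem_nhds.2 ⟨n, fun h hh => hh⟩)
    exact ⟨h, hS, hh⟩
  · intro H t ht
    obtain ⟨n, hn⟩ := SInf_mem_nhds.1 ht
    obtain ⟨h, hS, hh⟩ := H n
    exact ⟨h, hn h hh, hS⟩

lemma isOpen_agree (n : ℕ) (s : ℕ → ℕ) : IsOpen {h : SInf | ∀ i < n, ap h i = s i} := by
  rw [isOpen_iff_mem_nhds]
  intro g hg
  exact SInf_mem_nhds.2 ⟨n, fun h hh i hi => (hh i hi).trans (hg i hi)⟩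

instance : ContinuousMul SInf := ⟨by
  rw [continuous_SInf_iff]
  intro n
  exact continuous_evalN.comp
    ((continuous_ap.comp continuous_fst).prodMk ((continuous_ap_at n).comp continuous_snd))⟩

instance : ContinuousInv SInf := ⟨by
  rw [continuous_SInf_iff]
  intro n
  rw [continuous_iff_continuousAt]
  intro g
  have : ∀ᶠ h in 𝓝 g, ap h⁻¹ n = ap g⁻¹ n := by
    refine SInf_mem_nhds.2 ⟨ap g⁻¹ n + 1, fun h hh => ?_⟩
    have h1 := hh (ap g⁻¹ n) (Nat.lt_succ_self _)
    rw [ap_ap_inv] at h1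
    show ap h⁻¹ n = ap g⁻¹ n
    conv_lhs => rw [← h1]
    rw [ap_inv_ap]
  exact (continuousAt_const (y := ap g⁻¹ n)).congr (this.mono fun h hh => hh.symm)⟩

instance : IsTopologicalGroup SInf := {}

lemma isClosedEmbedding_pair : IsClosedEmbedding (fun g : SInf => (ap g, ap g⁻¹)) := by
  refine ⟨⟨?_, ?_⟩, ?_⟩
  · apply IsInducing.of_comp (g := Prod.fst)
    · exact continuous_ap.prodMk (continuous_ap.comp continuous_inv)
    · exact continuous_fst
    · exact isInducing_ap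
  · intro g h e
    exact ap_injective (congrArg Prod.fst e)
  · have : range (fun g : SInf => (ap g, ap g⁻¹)) =
        (⋂ n, {p : (ℕ → ℕ) × (ℕ → ℕ) | p.1 (p.2 n) = n}) ∩
          ⋂ n, {p : (ℕ → ℕ) × (ℕ → ℕ) | p.2 (p.1 n) = n} := by
      ext p
      simp only [mem_range, mem_inter_iff, mem_iInter, mem_ofPred_eq]
      constructor
      · rintro ⟨g, rfl⟩
        simp
      · rintro ⟨h1, h2⟩
        exact ⟨SInf.ofPerm ⟨p.1, p.2, h2, h1⟩, rfl⟩
    rw [this]
    refine IsClosed.inter (isClosed_iInter fun n => ?_) (isClosed_iInter fun n => ?_)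
    · exact isClosed_eq (continuous_evalN.comp
        (continuous_fst.prodMk ((continuous_apply n).comp continuous_snd))) continuous_const
    · exact isClosed_eq (continuous_evalN.comp
        (continuous_snd.prodMk ((continuous_apply n).comp continuous_fst))) continuous_const

instance : PolishSpace SInf := isClosedEmbedding_pair.polishSpace

/-- neighbourhoods of the identity in a subgroup -/
lemma sub_mem_nhds {G : Subgroup SInf} {U : Set G} {g : G} :
    U ∈ 𝓝 g ↔ ∃ n, ∀ h : G, (∀ i < n, ap h i = ap g i) → h ∈ U := by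
  rw [nhds_subtype, Filter.mem_comap]
  constructor
  · rintro ⟨t, ht, hsub⟩
    obtain ⟨n, hn⟩ := SInf_mem_nhds.1 ht
    exact ⟨n, fun h hh => hsub (hn _ hh)⟩
  · rintro ⟨n, hn⟩
    exact ⟨{h | ∀ i < n, ap h i = ap g i}, SInf_mem_nhds.2 ⟨n, fun h hh => hh⟩, fun h hh => hn h hh⟩

/-- continuity of a homomorphism between subgroups -/
lemma hom_continuous_iff {G H : Subgroup SInf} (θ : G →* H) :
    Continuous θ ↔ ∀ m, ∃ n, ∀ g : G, (∀ i < n, ap g i = i) → ∀ i < m, ap (θ g) i = i := by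
  constructor
  · intro hc m
    have h1 : {h : H | ∀ i < m, ap h i = i} ∈ 𝓝 (θ 1) := by
      rw [map_one]
      exact sub_mem_nhds.2 ⟨m, fun h hh => hh⟩
    obtain ⟨n, hn⟩ := sub_mem_nhds.1 (hc.continuousAt h1)
    exact ⟨n, fun g hg => hn g hg⟩
  · intro h
    apply continuous_of_continuousAt_one θ
    intro U hU
    rw [map_one] at hU
    obtain ⟨m, hm⟩ := sub_mem_nhds.1 hU
    obtain ⟨n, hn⟩ := h m
    exact sub_mem_nhds.2 ⟨n, fun g hg => hm _ (hn g hg)⟩

lemma topIso_equivalence : Equivalence TopIso :=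
  ⟨fun _ => ⟨ContinuousMulEquiv.refl _⟩, fun ⟨e⟩ => ⟨e.symm⟩, fun ⟨e⟩ ⟨e'⟩ => ⟨e.trans e'⟩⟩

end Pool.Agent.P.MP_52b1ec_lc
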