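import Pool.Agent.P.MP_52b1ec_lc.Rep

namespace Pool.Agent.P.MP_52b1ec_lc

open Topology Filter Set

variable {I Q : Type} [CommGroup Q] (N : I → ℕ → Subgroup Q)

/-- the `c₀`-product of filtered groups -/
def Gam : Subgroup (I → Q) where
  carrier := {g | (∀ a, g a ∈ N a 0) ∧ ∀ m, {a | g a ∉ N a m}.Finite}
  one_mem' := ⟨fun a => (N a 0).one_mem, fun m => by simp⟩
  mul_mem' := by
    rintro g h ⟨g1, g2⟩ ⟨h1, h2⟩
    refine ⟨fun a => (N a 0).mul_mem (g1 a) (h1 a), fun m => ((g2 m).union (h2 m)).subset ?_⟩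
    intro a ha
    by_contra hcon
    simp only [mem_union, mem_ofPred_eq, not_or, not_not] at hcon
    exact ha ((N a m).mul_mem hcon.1 hcon.2)
  inv_mem' := by
    rintro g ⟨g1, g2⟩
    exact ⟨fun a => (N a 0).inv_mem (g1 a), fun m => by simpa using g2 m⟩

/-- the basic open subgroups -/
def VV (m : ℕ) : Subgroup (Gam N) where
  carrier := {g | ∀ a, g.1 a ∈ N a m}
  one_mem' := fun a => (N a m).one_mem
  mul_mem' := fun hg hh a => (N a m).mul_mem (hg a) (hh a)
  inv_mem' := fun hg a => (N a m).inv_mem (hg a)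

/-- elements supported on a set -/
def HS (S : Set I) : Subgroup (Gam N) where
  carrier := {g | ∀ a ∉ S, g.1 a = 1}
  one_mem' := fun _ _ => rfl
  mul_mem' := by
    intro g h hg hh a ha
    show g.1 a * h.1 a = 1
    rw [hg a ha, hh a ha, one_mul]
  inv_mem' := by
    intro g hg a ha
    show (g.1 a)⁻¹ = 1
    rw [hg a ha, inv_one]

variable {N}

lemma mem_VV {m : ℕ} {g : Gam N} : g ∈ VV N m ↔ ∀ a, g.1 a ∈ N a m := Iff.rfl

lemma mem_HS {S : Set I} {g : Gam N} : g ∈ HS N S ↔ ∀ a ∉ S, g.1 a = 1 := Iff.rfl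

open Classical in
/-- truncation to a finite set -/
noncomputable def trunc (F : Finset I) (g : Gam N) : Gam N :=
  ⟨fun a => if a ∈ F then g.1 a else 1, fun a => by
    by_cases h : a ∈ F
    · simpa [h] using g.2.1 a
    · simp [h], fun m => F.finite_toSet.subset fun a ha => by
    by_contra h
    have h' : a ∉ F := h
    simp [h'] at ha⟩

lemma trunc_of_mem {F : Finset I} {g : Gam N} {a : I} (h : a ∈ F) : (trunc F g).1 a = g.1 a :=
  if_pos h

lemma trunc_of_notMem {F : Finset I} {g : Gam N} {a : I} (h : a ∉ F) : (trunc F g).1 a = 1 :=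
  if_neg h

lemma trunc_mem_HS {S : Set I} (F : Finset I) {g : Gam N} (hg : g ∈ HS N S) :
    trunc F g ∈ HS N S := by
  intro a ha
  by_cases h : a ∈ F
  · rw [trunc_of_mem h]; exact hg a ha
  · exact trunc_of_notMem h

lemma exists_trunc (g : Gam N) (m : ℕ) : ∃ F : Finset I, (trunc F g)⁻¹ * g ∈ VV N m := by
  refine ⟨(g.2.2 m).toFinset, fun a => ?_⟩
  show ((trunc _ g).1 a)⁻¹ * g.1 a ∈ N a m
  by_cases h : a ∈ (g.2.2 m).toFinset
  · rw [trunc_of_mem h, inv_mul_cancel]; exact (N a m).one_mem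
  · rw [trunc_of_notMem h, inv_one, one_mul]
    simpa using h

lemma countable_finsupp [Countable I] [Countable Q] :
    {g : Gam N | ∃ F : Finset I, ∀ a ∉ F, g.1 a = 1}.Countable := by
  classical
  have h1 : (⋃ F : Finset I, range (fun (f : F → Q) (a : I) =>
      if h : a ∈ F then f ⟨a, h⟩ else 1)).Countable :=
    countable_iUnion fun F => countable_range _
  refine (h1.preimage_of_injOn (f := Subtype.val) Subtype.val_injective.injOn).mono ?_
  rintro g ⟨F, hF⟩
  simp only [mem_preimage, mem_iUnion, mem_range]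
  refine ⟨F, fun a => g.1 a.1, ?_⟩
  funext a
  by_cases h : a ∈ F
  · simp [h]
  · simp [h, hF a h]

lemma countable_quot [Countable I] [Countable Q] (m : ℕ) : Countable (Gam N ⧸ VV N m) := by
  have := (countable_finsupp (N := N)).to_subtype
  refine Function.Surjective.countable
    (f := fun g : {g : Gam N | ∃ F : Finset I, ∀ a ∉ F, g.1 a = 1} => (g.1 : Gam N ⧸ VV N m)) ?_
  intro q
  induction q using QuotientGroup.induction_on with
  | H g =>
    obtain ⟨F, hF⟩ := exists_trunc g m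
    exact ⟨⟨trunc F g, F, fun a ha => trunc_of_notMem ha⟩, QuotientGroup.eq.2 hF⟩

lemma VV_anti (hN : ∀ a, Antitone (N a)) : Antitone (VV N) :=
  fun _ _ h _ hg a => hN a h (hg a)

lemma VV_sep (hb : ∀ a, ∃ M, N a M = ⊥) (g : Gam N) (hg : ∀ m, g ∈ VV N m) : g = 1 := by
  apply Subtype.ext
  funext a
  obtain ⟨M, hM⟩ := hb a
  have := hg M a
  rwa [hM, Subgroup.mem_bot] at this

lemma HS_complete (hb : ∀ a, ∃ M, N a M = ⊥) (S : Set I) (h : ℕ → Gam N)
    (h1 : ∀ m, h m ∈ HS N S) (h2 : ∀ m m', m ≤ m' → (h m)⁻¹ * h m' ∈ VV N m) :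
    ∃ g ∈ HS N S, ∀ m, g⁻¹ * h m ∈ VV N m := by
  choose M hM using hb
  have key : ∀ m a, ((h (M a)).1 a)⁻¹ * (h m).1 a ∈ N a m := by
    intro m a
    rcases le_total m (M a) with hle | hle
    · have := (N a m).inv_mem (h2 m (M a) hle a)
      simpa using this
    · have := h2 (M a) m hle a
      rw [hM a, Subgroup.mem_bot] at this
      have e : ((h (M a)).1 a)⁻¹ * (h m).1 a = 1 := this
      rw [e]
      exact (N a m).one_mem
  refine ⟨⟨fun a => (h (M a)).1 a, fun a => (h (M a)).2.1 a, fun m => ((h m).2.2 m).subset ?_⟩,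
    fun a ha => h1 (M a) a ha, fun m a => key m a⟩
  intro a ha hcon
  apply ha
  have := (N a m).mul_mem hcon ((N a m).inv_mem (key m a))
  simpa using this

open Classical in
/-- transport along a bijection -/
noncomputable def transp {S S' : Set I} (σ : S ≃ S') (γ : ℕ → ℕ)
    (h0 : ∀ a : S, N a 0 ≤ N (σ a) 0) (hγ : ∀ (a : S) m, N a (γ m) ≤ N (σ a) m)
    (g : HS N S) : HS N S' :=
  ⟨⟨fun b => if h : b ∈ S' then g.1.1 (σ.symm ⟨b, h⟩) else 1, fun b => by
      by_cases h : b ∈ S'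
      · have := h0 (σ.symm ⟨b, h⟩) (g.1.2.1 _)
        rw [σ.apply_symm_apply] at this
        simpa [h] using this
      · simp [h], fun m => by
      have hf : {a : S | g.1.1 a ∉ N a (γ m)}.Finite :=
        (g.1.2.2 (γ m)).preimage Subtype.val_injective.injOn
      refine (hf.image (fun a => (σ a).1)).subset fun b hb => ?_
      by_cases h : b ∈ S'
      · refine ⟨σ.symm ⟨b, h⟩, fun hcon => hb ?_, by simp⟩
        have := hγ _ _ hcon
        rw [σ.apply_symm_apply] at this
        simpa [h] using this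
      · simp [h] at hb⟩, fun b hb => dif_neg hb⟩

lemma transp_apply {S S' : Set I} (σ : S ≃ S') (γ : ℕ → ℕ)
    (h0 : ∀ a : S, N a 0 ≤ N (σ a) 0) (hγ : ∀ (a : S) m, N a (γ m) ≤ N (σ a) m)
    (g : HS N S) (b : S') : (transp σ γ h0 hγ g).1.1 b = g.1.1 (σ.symm b) := dif_pos b.2

lemma HS_ext {S : Set I} {g h : HS N S} (e : ∀ a : S, g.1.1 a = h.1.1 a) : g = h := by
  apply Subtype.ext
  apply Subtype.ext
  funext a
  by_cases ha : a ∈ S
  · exact e ⟨a, ha⟩
  · rw [g.2 a ha, h.2 a ha]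

lemma HS_mem_VV {S : Set I} {g : HS N S} {m : ℕ} (e : ∀ a : S, g.1.1 a ∈ N a m) :
    g.1 ∈ VV N m := by
  intro a
  by_cases ha : a ∈ S
  · exact e ⟨a, ha⟩
  · rw [g.2 a ha]; exact (N a m).one_mem

lemma uIso_of_equiv {S S' : Set I} (σ : S ≃ S') (γ : ℕ → ℕ)
    (h0 : ∀ a : S, N a 0 = N (σ a) 0) (hγ : ∀ (a : S) m, N a (γ m) ≤ N (σ a) m)
    (hγ' : ∀ (a : S) m, N (σ a) (γ m) ≤ N a m) : UIso (VV N) (HS N S) (HS N S') := by
  have k0 : ∀ b : S', N b 0 ≤ N (σ.symm b) 0 := by
    intro b; rw [h0, σ.apply_symm_apply]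
  have kγ : ∀ (b : S') m, N b (γ m) ≤ N (σ.symm b) m := by
    intro b m
    have := hγ' (σ.symm b) m
    rwa [σ.apply_symm_apply] at this
  refine ⟨{ toFun := transp σ γ (fun a => (h0 a).le) hγ, invFun := transp σ.symm γ k0 kγ,
            left_inv := ?_, right_inv := ?_, map_mul' := ?_ }, ?_, ?_⟩
  · intro g
    refine HS_ext fun a => ?_
    rw [transp_apply, transp_apply]
    simp
  · intro g
    refine HS_ext fun a => ?_
    rw [transp_apply, transp_apply]
    simp
  · intro g h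
    refine HS_ext fun a => ?_
    have : (transp σ γ (fun a => (h0 a).le) hγ g * transp σ γ (fun a => (h0 a).le) hγ h).1.1 a =
      (transp σ γ (fun a => (h0 a).le) hγ g).1.1 a *
        (transp σ γ (fun a => (h0 a).le) hγ h).1.1 a := rfl
    rw [this, transp_apply, transp_apply, transp_apply]
    rfl
  · intro m
    refine ⟨γ m, fun g hg => HS_mem_VV fun b => ?_⟩
    show (transp σ γ (fun a => (h0 a).le) hγ g).1.1 b ∈ _
    rw [transp_apply]
    have := hγ (σ.symm b) m (hg _)
    rwa [σ.apply_symm_apply] at this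
  · intro m
    refine ⟨γ m, fun g hg => HS_mem_VV fun a => ?_⟩
    show (transp σ.symm γ k0 kγ g).1.1 a ∈ _
    rw [transp_apply]
    exact hγ' a m (hg _)

open Classical in
/-- inclusion of one coordinate -/
noncomputable def single {S : Set I} (b : I) (hb : b ∈ S) : N b 0 →* HS N S where
  toFun c := ⟨⟨Pi.mulSingle b c.1, fun a => by
      by_cases h : a = b
      · subst h; simp
      · simp [h], fun m => (Set.finite_singleton b).subset fun a ha => by
      by_contra h
      have h' : a ≠ b := h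
      simp [h'] at ha⟩, fun a ha => by
      have h' : a ≠ b := fun e => ha (e ▸ hb)
      simp [h']⟩
  map_one' := by
    apply Subtype.ext; apply Subtype.ext
    simp
  map_mul' c d := by
    apply Subtype.ext; apply Subtype.ext
    simp [Pi.mulSingle_mul]

lemma single_same {S : Set I} (b : I) (hb : b ∈ S) (c : N b 0) :
    (single b hb c).1.1 b = c.1 := by
  simp [single]

lemma single_ne {S : Set I} (b : I) (hb : b ∈ S) (c : N b 0) {a : I} (h : a ≠ b) :
    (single b hb c).1.1 a = 1 := by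
  simp [single, h]

lemma extract (hb : ∀ a, ∃ M, N a M = ⊥) {S S' : Set I} (θ : HS N S' →* HS N S)
    (hs : Function.Surjective θ) (γ : ℕ → ℕ)
    (hγ : ∀ m, ∀ g : HS N S', g.1 ∈ VV N (γ m) → (θ g).1 ∈ VV N m)
    {a : I} (ha : a ∈ S) (c0 : N a 0) (r : ℕ) (hr : c0.1 ^ r ≠ 1) :
    ∃ b ∈ S', ∃ ψ : N b 0 →* Q, (∀ c, ψ c ∈ N a 0) ∧
      (∀ m (c : N b 0), c.1 ∈ N b (γ m) → ψ c ∈ N a m) ∧ ∃ c, ψ c ^ r ≠ 1 := by
  classical
  let χ : HS N S →* Q := (Pi.evalMonoidHom (fun _ => Q) a).comp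
    ((Gam N).subtype.comp (HS N S).subtype)
  have hχ : ∀ g, χ g = g.1.1 a := fun _ => rfl
  by_contra hcon
  push Not at hcon
  have h1 : ∀ b (hb : b ∈ S') (c : N b 0), χ (θ (single b hb c)) ^ r = 1 := by
    intro b hb
    refine hcon b hb (χ.comp (θ.comp (single b hb))) (fun c => (θ _).1.2.1 a) fun m c hc => ?_
    refine hγ m (single b hb c) (fun a' => ?_) a
    by_cases h : a' = b
    · subst h; rw [single_same]; exact hc
    · rw [single_ne b hb c h]; exact (N a' _).one_mem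
  obtain ⟨h, hh⟩ := hs (single a ha c0)
  have h2 : ∀ F : Finset I, χ (θ ⟨trunc F h.1, trunc_mem_HS F h.2⟩) ^ r = 1 := by
    intro F
    induction F using Finset.induction_on with
    | empty =>
      have : (⟨trunc ∅ h.1, trunc_mem_HS ∅ h.2⟩ : HS N S') = 1 :=
        HS_ext fun a => trunc_of_notMem (by simp)
      rw [this, map_one, map_one, one_pow]
    | insert b F hbF ih =>
      by_cases hb : b ∈ S'
      · have : (⟨trunc (insert b F) h.1, trunc_mem_HS _ h.2⟩ : HS N S') =
            single b hb ⟨h.1.1 b, h.1.2.1 b⟩ * ⟨trunc F h.1, trunc_mem_HS F h.2⟩ := by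
          refine HS_ext fun a' => ?_
          show (trunc (insert b F) h.1).1 a' =
            (single b hb ⟨h.1.1 b, h.1.2.1 b⟩).1.1 a' * (trunc F h.1).1 a'
          by_cases e : a'.1 = b
          · rw [e, single_same, trunc_of_notMem hbF, trunc_of_mem (Finset.mem_insert_self _ _),
              mul_one]
          · rw [single_ne b hb _ e, one_mul]
            by_cases e' : a'.1 ∈ F
            · rw [trunc_of_mem e', trunc_of_mem (Finset.mem_insert_of_mem e')]
            · rw [trunc_of_notMem e', trunc_of_notMem (by simp [e, e'])]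
        rw [this, map_mul, map_mul, mul_pow, h1, ih, one_mul]
      · have : (⟨trunc (insert b F) h.1, trunc_mem_HS _ h.2⟩ : HS N S') =
            ⟨trunc F h.1, trunc_mem_HS F h.2⟩ := by
          refine HS_ext fun a' => ?_
          show (trunc (insert b F) h.1).1 a' = (trunc F h.1).1 a'
          have e : a'.1 ≠ b := fun e => hb (e ▸ a'.2)
          by_cases e' : a'.1 ∈ F
          · rw [trunc_of_mem e', trunc_of_mem (Finset.mem_insert_of_mem e')]
          · rw [trunc_of_notMem e', trunc_of_notMem (by simp [e, e'])]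
        rw [this, ih]
  obtain ⟨M, hM⟩ := hb a
  obtain ⟨F, hF⟩ := exists_trunc h.1 (γ M)
  have h3 := hγ M ((⟨trunc F h.1, trunc_mem_HS F h.2⟩ : HS N S')⁻¹ * h) hF a
  rw [hM, Subgroup.mem_bot, ← hχ, map_mul, map_mul, map_inv, map_inv, inv_mul_eq_one, hh,
    hχ (single a ha c0), single_same] at h3
  exact hr (h3 ▸ h2 F)

lemma measurable_HS [Countable I] [Countable Q] {ρ : Gam N →* SInf} (hρ : IsRep (VV N) ρ)
    {X : Type*} [MeasurableSpace X] (S : X → Set I) (hS : ∀ a, MeasurableSet {x | a ∈ S x})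
    {U : Set SInf} (hU : IsOpen U) :
    MeasurableSet {x | ∃ g ∈ (HS N (S x)).map ρ, g ∈ U} := by
  have : {x | ∃ g ∈ (HS N (S x)).map ρ, g ∈ U} =
      ⋃ d ∈ {g : Gam N | ∃ F : Finset I, ∀ a ∉ F, g.1 a = 1}, ⋃ (_ : ρ d ∈ U),
        ⋂ a, ⋂ (_ : d.1 a ≠ 1), {x | a ∈ S x} := by
    ext x
    simp only [mem_ofPred_eq, mem_iUnion, mem_iInter, exists_prop]
    constructor
    · rintro ⟨_, ⟨g, hg, rfl⟩, hgU⟩
      obtain ⟨n, hn⟩ := SInf_mem_nhds.1 (hU.mem_nhds hgU)
      obtain ⟨m, hm⟩ := hρ.h2 n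
      obtain ⟨F, hF⟩ := exists_trunc g m
      refine ⟨trunc F g, ⟨F, fun a ha => trunc_of_notMem ha⟩, hn _ fun i hi => ?_, fun a ha => ?_⟩
      · exact ((agree_iff _ _ _).1 (hm _ hF) i hi).symm
      · by_contra hcon
        exact ha (trunc_mem_HS F hg a hcon)
    · rintro ⟨d, -, hdU, hd⟩
      refine ⟨ρ d, ⟨d, fun a ha => ?_, rfl⟩, hdU⟩
      by_contra hcon
      exact ha (hd a hcon)
  rw [this]
  exact MeasurableSet.biUnion countable_finsupp fun d _ => MeasurableSet.iUnion fun _ =>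
    MeasurableSet.iInter fun a => MeasurableSet.iInter fun _ => hS a

end Pool.Agent.P.MP_52b1ec_lc
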