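import Mathlib

namespace Pool.Agent.P.MP_52b1ec_lc

open Topology Filter Set

abbrev K : Type := ℕ → Bool

def Agree (n : ℕ) (a b : K) : Prop := ∀ i < n, a i = b i

lemma Agree.refl (n : ℕ) (a : K) : Agree n a a := fun _ _ => rfl

lemma Agree.symm {n : ℕ} {a b : K} (h : Agree n a b) : Agree n b a := fun i hi => (h i hi).symm

lemma Agree.trans {n : ℕ} {a b c : K} (h : Agree n a b) (h' : Agree n b c) : Agree n a c :=
  fun i hi => (h i hi).trans (h' i hi)

lemma Agree.mono {n n' : ℕ} {a b : K} (h : Agree n a b) (hn : n' ≤ n) : Agree n' a b :=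
  fun i hi => h i (lt_of_lt_of_le hi hn)

variable (φ : (ℕ → ℕ) → K × K)

def Step (n : ℕ) (α : ℕ → ℕ) (a b : K) : Prop :=
  ∃ z : ℕ → ℕ, (∀ i < n, z i ≤ α i) ∧ Agree n (φ z).1 a ∧ Agree n (φ z).2 b

def Chain (n : ℕ) (α : ℕ → ℕ) : ℕ → K → K → Prop
  | 0, a, b => Agree n a b
  | k + 1, a, b => Chain n α k a b ∨ ∃ c, Chain n α k a c ∧ Step φ n α c b

variable {φ}

lemma Step.mono {n n' : ℕ} {α α' : ℕ → ℕ} {a b a' b' : K} (h : Step φ n α a b) (hn : n' ≤ n)
    (hα : ∀ i < n', α i ≤ α' i) (ha : Agree n' a a') (hb : Agree n' b b') :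
    Step φ n' α' a' b' := by
  obtain ⟨z, hz, h1, h2⟩ := h
  exact ⟨z, fun i hi => (hz i (lt_of_lt_of_le hi hn)).trans (hα i hi), (h1.mono hn).trans ha,
    (h2.mono hn).trans hb⟩

lemma Chain.mono {n n' : ℕ} {α α' : ℕ → ℕ} (hn : n' ≤ n) (hα : ∀ i < n', α i ≤ α' i) :
    ∀ {k : ℕ} {a b a' b' : K}, Chain φ n α k a b → Agree n' a a' → Agree n' b b' →
      Chain φ n' α' k a' b'
  | 0, _, _, _, _, h, ha, hb => ha.symm.trans ((Agree.mono h hn).trans hb)
  | _ + 1, _, _, _, _, h, ha, hb => by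
    rcases h with h | ⟨c, h1, h2⟩
    · exact Or.inl (Chain.mono hn hα h ha hb)
    · exact Or.inr ⟨c, Chain.mono hn hα h1 ha (Agree.refl _ _),
        h2.mono hn hα (Agree.refl _ _) hb⟩

lemma Chain.mono_len {n : ℕ} {α : ℕ → ℕ} {k k' : ℕ} {a b : K} (h : Chain φ n α k a b)
    (hk : k ≤ k') : Chain φ n α k' a b := by
  induction hk with
  | refl => exact h
  | step _ ih => exact Or.inl ih

lemma exists_ultra_lim (c : ℕ → K) :
    ∃ d : K, ∀ m, ∀ᶠ n in (hyperfilter ℕ : Filter ℕ), Agree m (c n) d := by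
  have : ∀ i, ∃ v : Bool, ∀ᶠ n in (hyperfilter ℕ : Filter ℕ), c n i = v := by
    intro i
    have : ∀ᶠ n in (hyperfilter ℕ : Filter ℕ), c n i = true ∨ c n i = false :=
      Eventually.of_forall fun n => by cases c n i <;> simp
    rcases Ultrafilter.eventually_or.1 this with h | h
    · exact ⟨_, h⟩
    · exact ⟨_, h⟩
  choose d hd using this
  refine ⟨d, fun m => ?_⟩
  have : ∀ᶠ n in (hyperfilter ℕ : Filter ℕ), ∀ i ∈ Set.Iio m, c n i = d i :=
    (eventually_all_finite (Set.finite_Iio m)).2 fun i _ => hd i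
  exact this.mono fun n hn i hi => hn i hi

lemma hyper_ge (m : ℕ) : ∀ᶠ n in (hyperfilter ℕ : Filter ℕ), m ≤ n :=
  Nat.hyperfilter_le_atTop (eventually_ge_atTop m)

lemma step_limit (hφ : Continuous φ) {α : ℕ → ℕ} {a b : K} (h : ∀ n, Step φ n α a b) :
    ∃ z, φ z = (a, b) := by
  choose z hz h1 h2 using h
  have : ∀ i, ∃ v : ℕ, ∀ᶠ n in (hyperfilter ℕ : Filter ℕ), z n i = v := by
    intro i
    have h3 : ∀ᶠ n in (hyperfilter ℕ : Filter ℕ), ∃ v ∈ Set.Iic (α i), z n i = v :=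
      (hyper_ge (i + 1)).mono fun n hn => ⟨z n i, hz n i hn, rfl⟩
    obtain ⟨v, -, hv⟩ := (Ultrafilter.eventually_exists_mem_iff (Set.finite_Iic _)).1 h3
    exact ⟨v, hv⟩
  choose w hw using this
  refine ⟨w, ?_⟩
  have t1 : Tendsto z (hyperfilter ℕ : Filter ℕ) (𝓝 w) := by
    rw [tendsto_pi_nhds]
    intro i
    exact tendsto_const_nhds.congr' ((hw i).mono fun n hn => hn.symm)
  have t2 : Tendsto (fun n => φ (z n)) (hyperfilter ℕ : Filter ℕ) (𝓝 (φ w)) :=
    (hφ.tendsto w).comp t1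
  have t3 : Tendsto (fun n => φ (z n)) (hyperfilter ℕ : Filter ℕ) (𝓝 (a, b)) := by
    refine Tendsto.prodMk_nhds ?_ ?_
    · rw [tendsto_pi_nhds]
      intro i
      exact tendsto_const_nhds.congr' ((hyper_ge (i + 1)).mono fun n hn => (h1 n i hn).symm)
    · rw [tendsto_pi_nhds]
      intro i
      exact tendsto_const_nhds.congr' ((hyper_ge (i + 1)).mono fun n hn => (h2 n i hn).symm)
  exact tendsto_nhds_unique t2 t3

lemma chain_limit (hφ : Continuous φ) {E : K → K → Prop} (hE : Equivalence E)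
    (hr : ∀ z, E (φ z).1 (φ z).2) {α : ℕ → ℕ} :
    ∀ {k : ℕ} {a b : K}, (∀ n, Chain φ n α k a b) → E a b
  | 0, a, b, h => by
    have : a = b := funext fun i => h (i + 1) i (Nat.lt_succ_self i)
    rw [this]
    exact hE.refl b
  | k + 1, a, b, h => by
    by_cases h0 : ∀ n, Chain φ n α k a b
    · exact chain_limit hφ hE hr h0
    · push Not at h0
      obtain ⟨n0, hn0⟩ := h0
      have h1 : ∀ n, ∃ c, n0 ≤ n → Chain φ n α k a c ∧ Step φ n α c b := by
        intro n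
        by_cases hn : n0 ≤ n
        · rcases h n with h' | ⟨c, hc⟩
          · exact (hn0 (Chain.mono hn (fun _ _ => le_rfl) h' (Agree.refl _ _)
              (Agree.refl _ _))).elim
          · exact ⟨c, fun _ => hc⟩
        · exact ⟨a, fun h' => (hn h').elim⟩
      choose c hc using h1
      obtain ⟨d, hd⟩ := exists_ultra_lim c
      have h2 : ∀ m, Chain φ m α k a d ∧ Step φ m α d b := by
        intro m
        obtain ⟨n, hn1, hn2, hn3⟩ := ((hd m).and ((hyper_ge m).and (hyper_ge n0))).exists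
        exact ⟨Chain.mono hn2 (fun _ _ => le_rfl) (hc n hn3).1 (Agree.refl _ _) hn1,
          (hc n hn3).2.mono hn2 (fun _ _ => le_rfl) hn1 (Agree.refl _ _)⟩
      have e1 : E a d := chain_limit hφ hE hr fun m => (h2 m).1
      obtain ⟨z, hz⟩ := step_limit hφ fun m => (h2 m).2
      have e2 := hr z
      rw [hz] at e2
      exact hE.trans e1 e2

/-! ### Atoms -/

abbrev Atom : Type := List Bool × List ℕ

def Atom.n (a : Atom) : ℕ := a.1.length

def Atom.u (a : Atom) : K := fun i => a.1.getD i false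

def Atom.t (a : Atom) : ℕ → ℕ := fun i => a.2.getD i 0

variable (φ) in
/-- the set of atoms attached to a point -/
def SS (x : K) : Set Atom :=
  {a | a.2.length = a.n ∧ (∀ i j, i < j → j < a.n → a.t i < a.t j) ∧
    ∃ k, (∀ i < a.n, k ≤ a.t i) ∧ Chain φ a.n a.t k a.u x}

lemma SS_congr {x y : K} {a : Atom} (h : Agree a.n x y) (ha : a ∈ SS φ x) : a ∈ SS φ y := by
  obtain ⟨h1, h2, k, h3, h4⟩ := ha
  exact ⟨h1, h2, k, h3, Chain.mono le_rfl (fun _ _ => le_rfl) h4 (Agree.refl _ _) h⟩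

lemma isOpen_SS (a : Atom) : IsOpen {x : K | a ∈ SS φ x} := by
  rw [isOpen_iff_mem_nhds]
  intro x hx
  have : ∀ᶠ y in 𝓝 x, ∀ i ∈ Set.Iio a.n, y i = x i := by
    refine (eventually_all_finite (Set.finite_Iio _)).2 fun i _ => ?_
    have hc : Continuous (fun y : K => y i) := continuous_apply i
    exact ((isOpen_discrete {x i}).preimage hc).mem_nhds rfl
  exact this.mono fun y hy => SS_congr (fun i hi => (hy i hi).symm) hx

lemma le_t_of_strict {a : Atom} (h : ∀ i j, i < j → j < a.n → a.t i < a.t j) :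
    ∀ i < a.n, i ≤ a.t i := by
  intro i
  induction i with
  | zero => intro _; exact Nat.zero_le _
  | succ i ih =>
    intro hi
    have := h i (i + 1) (Nat.lt_succ_self i) hi
    have := ih (Nat.lt_of_succ_lt hi)
    omega

/-- rescaling of an atom -/
def Atom.sc (β : ℕ → ℕ) (a : Atom) : Atom := (a.1, a.2.map β)

lemma Atom.sc_inj {β : ℕ → ℕ} (hβ : Function.Injective β) : Function.Injective (Atom.sc β) := by
  rintro ⟨u, t⟩ ⟨u', t'⟩ h
  simp only [Atom.sc, Prod.mk.injEq] at h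
  obtain ⟨rfl, h⟩ := h
  rw [List.map_injective_iff.2 hβ h]

lemma Atom.sc_t (β : ℕ → ℕ) {a : Atom} (h : a.2.length = a.n) {i : ℕ} (hi : i < a.n) :
    (a.sc β).t i = β (a.t i) := by
  simp only [Atom.sc, Atom.t]
  rw [← h] at hi
  simp [List.getD_eq_getElem?_getD, List.getElem?_map, List.getElem?_eq_getElem hi]

lemma exists_scale (z : ℕ → ℕ) : ∃ β : ℕ → ℕ, StrictMono β ∧ (∀ m, m < β m) ∧
    ∀ j m, j ≤ m → z j ≤ β m := by
  refine ⟨fun m => m + 1 + ∑ j ∈ Finset.range (m + 1), z j, ?_, fun m => by simp only; omega, ?_⟩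
  · apply strictMono_nat_of_lt_succ
    intro m
    rw [Finset.sum_range_succ _ (m + 1)]
    omega
  · intro j m hj
    have := Finset.single_le_sum (f := z) (s := Finset.range (m + 1))
      (fun _ _ => Nat.zero_le _) (Finset.mem_range.2 (Nat.lt_succ_of_le hj))
    show z j ≤ m + 1 + ∑ j ∈ Finset.range (m + 1), z j
    omega

lemma sc_mem {z : ℕ → ℕ} {β : ℕ → ℕ} (h1 : StrictMono β) (h2 : ∀ m, m < β m)
    (h3 : ∀ j m, j ≤ m → z j ≤ β m) {a : Atom} (ha : a ∈ SS φ (φ z).1) :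
    a.sc β ∈ SS φ (φ z).2 := by
  obtain ⟨e1, e2, k, e3, e4⟩ := ha
  have hn : (a.sc β).n = a.n := rfl
  have hu : (a.sc β).u = a.u := rfl
  refine ⟨by rw [hn, ← e1]; simp [Atom.sc], fun i j hij hj => ?_, k + 1, fun i hi => ?_, ?_⟩
  · rw [Atom.sc_t β e1 hj, Atom.sc_t β e1 (hij.trans hj)]
    exact h1 (e2 i j hij hj)
  · rw [Atom.sc_t β e1 hi]
    have := e3 i hi
    have := h2 (a.t i)
    omega
  · rw [hn, hu]
    refine Or.inr ⟨(φ z).1, Chain.mono le_rfl (fun i hi => ?_) e4 (Agree.refl _ _)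
      (Agree.refl _ _), z, fun i hi => ?_, Agree.refl _ _, Agree.refl _ _⟩
    · rw [Atom.sc_t β e1 hi]
      exact (h2 _).le
    · rw [Atom.sc_t β e1 hi]
      exact h3 _ _ (le_t_of_strict e2 i hi)

/-- comparable scales -/
def Cmp (γ : ℕ → ℕ) (a b : Atom) : Prop :=
  a.1 = b.1 ∧ ∀ m, ∀ i < a.n, (a.t i < m → b.t i < γ m) ∧ (b.t i < m → a.t i < γ m)

lemma exists_equiv_of_range {x y : K} {z z' : ℕ → ℕ} (hz : φ z = (x, y)) (hz' : φ z' = (y, x)) :
    ∃ (γ : ℕ → ℕ) (σ : SS φ x ≃ SS φ y), ∀ a : SS φ x, Cmp γ a.1 (σ a).1 := by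
  obtain ⟨β, b1, b2, b3⟩ := exists_scale (z + z')
  have m1 : ∀ a ∈ SS φ x, a.sc β ∈ SS φ y := by
    intro a ha
    have := sc_mem (φ := φ) (z := z) b1 b2
      (fun j m h => le_trans (Nat.le_add_right _ _) (b3 j m h)) (a := a) (by rwa [hz])
    rwa [hz] at this
  have m2 : ∀ a ∈ SS φ y, a.sc β ∈ SS φ x := by
    intro a ha
    have := sc_mem (φ := φ) (z := z') b1 b2
      (fun j m h => le_trans (Nat.le_add_left _ _) (b3 j m h)) (a := a) (by rwa [hz'])
    rwa [hz'] at this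
  obtain ⟨h, hb, hR⟩ := Function.Embedding.schroeder_bernstein_of_rel
    (f := fun a : SS φ x => (⟨a.1.sc β, m1 a.1 a.2⟩ : SS φ y))
    (g := fun a : SS φ y => (⟨a.1.sc β, m2 a.1 a.2⟩ : SS φ x))
    (fun a b e => Subtype.ext (Atom.sc_inj b1.injective (congrArg Subtype.val e)))
    (fun a b e => Subtype.ext (Atom.sc_inj b1.injective (congrArg Subtype.val e)))
    (fun a b => Cmp β a.1 b.1) (by
      intro a
      refine ⟨rfl, fun m i hi => ?_⟩
      simp only
      rw [Atom.sc_t β a.2.1 hi]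
      have := b2 (a.1.t i)
      have := b2 m
      exact ⟨fun h => b1 h, fun h => by omega⟩) (by
      intro a
      refine ⟨rfl, fun m i hi => ?_⟩
      simp only
      rw [Atom.sc_t β a.2.1 hi]
      have := b2 (a.1.t i)
      have := b2 m
      exact ⟨fun h => by omega, fun h => b1 h⟩)
  exact ⟨β, Equiv.ofBijective h hb, hR⟩

/-- the basic atoms of a point -/
def base (x : K) (n : ℕ) : Atom := ((List.range n).map x, List.range n)

lemma base_n (x : K) (n : ℕ) : (base x n).n = n := by simp [base, Atom.n]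

lemma base_t (x : K) (n : ℕ) {i : ℕ} (hi : i < n) : (base x n).t i = i := by
  simp [base, Atom.t, List.getD_eq_getElem?_getD, List.getElem?_range hi]

lemma base_u (x : K) (n : ℕ) : Agree n (base x n).u x := by
  intro i hi
  simp [base, Atom.u, List.getD_eq_getElem?_getD, List.getElem?_map, List.getElem?_range hi]

lemma base_mem (x : K) (n : ℕ) : base x n ∈ SS φ x := by
  refine ⟨by simp [base, Atom.n], fun i j hij hj => ?_, 0, fun _ _ => Nat.zero_le _, ?_⟩
  · rw [base_n] at hj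
    rw [base_t x n hj, base_t x n (hij.trans hj)]
    exact hij
  · rw [base_n]
    exact base_u x n

lemma rel_of_atoms (hφ : Continuous φ) {E : K → K → Prop} (hE : Equivalence E)
    (hr : ∀ z, E (φ z).1 (φ z).2) {x y : K} {α : ℕ → ℕ}
    (h : ∀ n, ∃ b ∈ SS φ y, b.1 = (base x (n + 1)).1 ∧ ∀ i < n + 1, b.t i ≤ α i) : E x y := by
  refine chain_limit hφ hE hr (α := α) (k := α 0) fun n => ?_
  obtain ⟨b, ⟨-, -, k, h3, h4⟩, hb1, hb2⟩ := h n
  have hn : b.n = n + 1 := by rw [← base_n x (n + 1)]; simp only [Atom.n, hb1]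
  have hu : b.u = (base x (n + 1)).u := by unfold Atom.u; rw [hb1]
  rw [hn] at h3 h4
  have hk : k ≤ α 0 := (h3 0 (Nat.succ_pos n)).trans (hb2 0 (Nat.succ_pos n))
  refine Chain.mono (Nat.le_succ n) (fun i hi => hb2 i (Nat.lt_succ_of_lt hi))
    (h4.mono_len hk) ?_ (Agree.refl _ _)
  rw [hu]
  exact (base_u x (n + 1)).mono (Nat.le_succ n)

end Pool.Agent.P.MP_52b1ec_lc
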