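import Mathlib

namespace Pool.Agent.P.MP_52b1ec_lc

/-- The group of all permutations of the natural numbers. -/
def SInf : Type := Equiv.Perm ℕ

instance instGroupSInf : Group SInf := @Equiv.Perm.permGroup ℕ

/-- The topology of pointwise convergence. -/
instance instTopSInf : TopologicalSpace SInf :=
  TopologicalSpace.induced (fun (g : Equiv.Perm ℕ) (n : ℕ) => g n) Pi.topologicalSpace

/-- The Effros Borel structure on the closed subgroups. -/
instance instEffros : MeasurableSpace (ClosedSubgroup SInf) :=
  MeasurableSpace.generateFrom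
    {S | ∃ U : Set SInf, IsOpen U ∧ S = {G : ClosedSubgroup SInf | ∃ g ∈ G, g ∈ U}}

/-- Topological group isomorphism. -/
def TopIso (G H : ClosedSubgroup SInf) : Prop :=
  Nonempty (ContinuousMulEquiv G.toSubgroup H.toSubgroup)

/-- Invariant classes. -/
def Invariant (C : Set (ClosedSubgroup SInf)) : Prop :=
  ∀ G ∈ C, ∀ H, TopIso G H → H ∈ C

/-- The isomorphism relation of a class. -/
def IsoOn (C : Set (ClosedSubgroup SInf)) (G H : C) : Prop := TopIso G.1 H.1

/-- Borel reducibility. -/
def BorelRed {X Y : Type} [MeasurableSpace X] [MeasurableSpace Y]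
    (E : X → X → Prop) (F : Y → Y → Prop) : Prop :=
  ∃ f : X → Y, Measurable f ∧ ∀ x x', E x x' ↔ F (f x) (f x')

/-- Analytic equivalence relations: projections of Borel sets along Baire space. -/
def IsAnalyticEqv {X : Type} [MeasurableSpace X] (E : X → X → Prop) : Prop :=
  Equivalence E ∧
    ∃ B : Set ((X × X) × (ℕ → ℕ)), MeasurableSet B ∧ ∀ x y, E x y ↔ ∃ z, ((x, y), z) ∈ B

/-- Analytic complete equivalence relations. -/
def AnalyticComplete {Y : Type} [MeasurableSpace Y] (E : Y → Y → Prop) : Prop :=
  IsAnalyticEqv E ∧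
    ∀ (X : Type) [MeasurableSpace X] [StandardBorelSpace X] (F : X → X → Prop),
      IsAnalyticEqv F → BorelRed F E

/-- Isomorphism of graphs on the natural numbers. -/
def GraphIso (A B : SimpleGraph ℕ) : Prop := Nonempty (SimpleGraph.Iso A B)

/-- Pro-countable closed subgroups: open normal subgroups form a base at the identity. -/
def ProCountable : Set (ClosedSubgroup SInf) :=
  {G | ∀ U ∈ nhds (1 : G.toSubgroup), ∃ N : Subgroup G.toSubgroup,
    N.Normal ∧ IsOpen (N : Set G.toSubgroup) ∧ (N : Set G.toSubgroup) ⊆ U}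

/-- Abelian closed subgroups. -/
def Abelian : Set (ClosedSubgroup SInf) := {G | ∀ a ∈ G, ∀ b ∈ G, a * b = b * a}

end Pool.Agent.P.MP_52b1ec_lc
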