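import Pool.Agent.P.MP_52b1ec_lc.Basic

namespace Pool.Agent.P.MP_52b1ec_lc

open Topology Filter Set

abbrev CS : Type := ClosedSubgroup SInf

lemma measurableSet_hit {U : Set SInf} (hU : IsOpen U) :
    MeasurableSet {G : CS | ∃ g ∈ G, g ∈ U} :=
  MeasurableSpace.measurableSet_generateFrom ⟨U, hU, rfl⟩

lemma measurable_CS {Ω : Type*} [MeasurableSpace Ω] {f : Ω → CS}
    (h : ∀ U : Set SInf, IsOpen U → MeasurableSet {ω | ∃ g ∈ f ω, g ∈ U}) : Measurable f := by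
  apply measurable_generateFrom
  rintro _ ⟨U, hU, rfl⟩
  exact h U hU

lemma measurableSet_hit2 {Ω Z : Type*} [MeasurableSpace Ω] [TopologicalSpace Z]
    [SecondCountableTopology Z] [MeasurableSpace Z] [OpensMeasurableSpace Z]
    {ζ : Ω → Z} {G H : Ω → CS} (hζ : Measurable ζ) (hG : Measurable G) (hH : Measurable H)
    {W : Set (Z × SInf × SInf)} (hW : IsOpen W) :
    MeasurableSet {ω | ∃ g ∈ G ω, ∃ h ∈ H ω, (ζ ω, g, h) ∈ W} := by
  obtain ⟨bZ, cZ, -, hbZ⟩ := TopologicalSpace.exists_countable_basis Z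
  obtain ⟨bS, cS, -, hbS⟩ := TopologicalSpace.exists_countable_basis SInf
  have : {ω | ∃ g ∈ G ω, ∃ h ∈ H ω, (ζ ω, g, h) ∈ W} =
      ⋃ O ∈ bZ, ⋃ U ∈ bS, ⋃ V ∈ bS, ⋃ (_ : O ×ˢ (U ×ˢ V) ⊆ W),
        (ζ ⁻¹' O ∩ (G ⁻¹' {G : CS | ∃ g ∈ G, g ∈ U} ∩ H ⁻¹' {G : CS | ∃ g ∈ G, g ∈ V})) := by
    ext ω
    simp only [mem_ofPred_eq, mem_iUnion, mem_inter_iff, mem_preimage, exists_prop]
    constructor
    · rintro ⟨g, hg, h, hh, hmem⟩
      obtain ⟨O', hO', T, hT, hsub⟩ := mem_nhds_prod_iff.1 (hW.mem_nhds hmem)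
      obtain ⟨U', hU', V', hV', hsub'⟩ := mem_nhds_prod_iff.1 hT
      obtain ⟨O, hO, hO1, hO2⟩ := hbZ.mem_nhds_iff.1 hO'
      obtain ⟨U, hU, hU1, hU2⟩ := hbS.mem_nhds_iff.1 hU'
      obtain ⟨V, hV, hV1, hV2⟩ := hbS.mem_nhds_iff.1 hV'
      refine ⟨O, hO, U, hU, V, hV, ?_, hO1, ⟨g, hg, hU1⟩, ⟨h, hh, hV1⟩⟩
      exact (prod_mono hO2 ((prod_mono hU2 hV2).trans hsub')).trans hsub
    · rintro ⟨O, -, U, -, V, -, hsub, hO1, ⟨g, hg, hU1⟩, ⟨h, hh, hV1⟩⟩
      exact ⟨g, hg, h, hh, hsub ⟨hO1, hU1, hV1⟩⟩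
  rw [this]
  refine MeasurableSet.biUnion cZ fun O hO => MeasurableSet.biUnion cS fun U hU =>
    MeasurableSet.biUnion cS fun V hV => MeasurableSet.iUnion fun _ => ?_
  exact (hζ (hbZ.isOpen hO).measurableSet).inter
    ((hG (measurableSet_hit (hbS.isOpen hU))).inter (hH (measurableSet_hit (hbS.isOpen hV))))

lemma measurableSet_all2 {Ω Z : Type*} [MeasurableSpace Ω] [TopologicalSpace Z]
    [SecondCountableTopology Z] [MeasurableSpace Z] [OpensMeasurableSpace Z]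
    {ζ : Ω → Z} {G H : Ω → CS} (hζ : Measurable ζ) (hG : Measurable G) (hH : Measurable H)
    {W : Set (Z × SInf × SInf)} (hW : IsClosed W) :
    MeasurableSet {ω | ∀ g ∈ G ω, ∀ h ∈ H ω, (ζ ω, g, h) ∈ W} := by
  have := (measurableSet_hit2 hζ hG hH hW.isOpen_compl).compl
  convert this using 1
  ext ω
  simp

/-! ### The two classes -/

lemma measurableSet_abelian : MeasurableSet Abelian := by
  have hW : IsClosed {p : ℕ × SInf × SInf | p.2.1 * p.2.2 = p.2.2 * p.2.1} :=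
    isClosed_eq (by fun_prop) (by fun_prop)
  exact measurableSet_all2 (Ω := CS) (ζ := fun _ => (0 : ℕ)) measurable_const measurable_id
    measurable_id hW

lemma invariant_abelian : Invariant Abelian := by
  rintro G hG H ⟨e⟩ a ha b hb
  have h1 : e.symm ⟨a, ha⟩ * e.symm ⟨b, hb⟩ = e.symm ⟨b, hb⟩ * e.symm ⟨a, ha⟩ :=
    Subtype.ext (hG _ (e.symm ⟨a, ha⟩).2 _ (e.symm ⟨b, hb⟩).2)
  rw [← map_mul, ← map_mul] at h1
  exact congrArg Subtype.val (e.symm.injective h1)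

/-- pointwise stabiliser of an initial segment inside a subgroup -/
def stab (G : Subgroup SInf) (n : ℕ) : Subgroup G where
  carrier := {g | ∀ i < n, ap g i = i}
  one_mem' := fun _ _ => rfl
  mul_mem' := by
    intro a b ha hb i hi
    show ap (a.1 * b.1) i = i
    rw [ap_mul, hb i hi, ha i hi]
  inv_mem' := by
    intro a ha i hi
    show ap (a.1⁻¹) i = i
    conv_lhs => rw [← ha i hi]
    rw [ap_inv_ap]

lemma stab_mem_nhds (G : Subgroup SInf) (n : ℕ) : (stab G n : Set G) ∈ 𝓝 (1 : G) :=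
  sub_mem_nhds.2 ⟨n, fun _ hh => hh⟩

lemma mem_proCountable_iff (G : CS) : G ∈ ProCountable ↔
    ∀ n, ∃ m, ∀ g ∈ G, ∀ h ∈ G, (∀ i < m, ap h i = i) → ∀ i < n, ap (g * h * g⁻¹) i = i := by
  constructor
  · intro hG n
    obtain ⟨N, hN, hNo, hNs⟩ := hG _ (stab_mem_nhds G.toSubgroup n)
    obtain ⟨m, hm⟩ := sub_mem_nhds.1 (hNo.mem_nhds N.one_mem)
    refine ⟨m, fun g hg h hh hfix => ?_⟩
    exact hNs (hN.conj_mem ⟨h, hh⟩ (hm ⟨h, hh⟩ hfix) ⟨g, hg⟩)
  · intro hG U hU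
    obtain ⟨n, hn⟩ := sub_mem_nhds.1 hU
    obtain ⟨m, hm⟩ := hG n
    refine ⟨(stab G.toSubgroup n).normalCore, inferInstance, ?_, ?_⟩
    · apply Subgroup.isOpen_of_mem_nhds _ (g := 1)
      refine sub_mem_nhds.2 ⟨m, fun h hh => ?_⟩
      intro g
      exact hm g.1 g.2 h.1 h.2 hh
    · intro h hh
      exact hn h ((stab G.toSubgroup n).normalCore_le hh)

lemma measurableSet_proCountable : MeasurableSet ProCountable := by
  have : ProCountable = ⋂ n : ℕ, ⋃ m : ℕ, {G : CS | ∀ g ∈ G, ∀ h ∈ G, ((0 : ℕ), g, h) ∈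
      {p : ℕ × SInf × SInf | (∀ i < m, ap p.2.2 i = i) →
        ∀ i < n, ap (p.2.1 * p.2.2 * p.2.1⁻¹) i = i}} := by
    ext G
    rw [mem_proCountable_iff]
    simp
  rw [this]
  refine MeasurableSet.iInter fun n => MeasurableSet.iUnion fun m => ?_
  refine measurableSet_all2 (Ω := CS) (ζ := fun _ => (0 : ℕ)) measurable_const measurable_id
    measurable_id ?_
  have : {p : ℕ × SInf × SInf | (∀ i < m, ap p.2.2 i = i) →
        ∀ i < n, ap (p.2.1 * p.2.2 * p.2.1⁻¹) i = i} =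
      ((fun p : ℕ × SInf × SInf => p.2.2) ⁻¹' {h : SInf | ∀ i < m, ap h i = i})ᶜ ∪
        ⋂ i ∈ Set.Iio n, {p : ℕ × SInf × SInf | ap (p.2.1 * p.2.2 * p.2.1⁻¹) i = i} := by
    ext p
    simp only [mem_ofPred_eq, mem_union, mem_compl_iff, mem_preimage, mem_iInter, mem_Iio]
    tauto
  rw [this]
  refine IsClosed.union ?_ (isClosed_biInter fun i _ => ?_)
  · exact ((isOpen_agree m (fun i => i)).preimage (by fun_prop)).isClosed_compl
  · exact isClosed_eq ((continuous_ap_at i).comp (by fun_prop)) continuous_const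

lemma invariant_proCountable : Invariant ProCountable := by
  rintro G hG H ⟨e⟩ U hU
  have h1 : e ⁻¹' U ∈ 𝓝 (1 : G.toSubgroup) := by
    apply (map_continuous e).continuousAt
    rwa [map_one]
  obtain ⟨N, hN, hNo, hNs⟩ := hG _ h1
  refine ⟨N.comap (e.symm : H.toSubgroup →* G.toSubgroup), hN.comap _, ?_, ?_⟩
  · exact hNo.preimage (map_continuous e.symm)
  · intro h hh
    have := hNs hh
    simpa using this

lemma abelian_subset_proCountable : Abelian ⊆ ProCountable := by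
  intro G hG
  rw [mem_proCountable_iff]
  intro n
  refine ⟨n, fun g hg h hh hfix i hi => ?_⟩
  rw [hG g hg h hh, mul_assoc, mul_inv_cancel, mul_one]
  exact hfix i hi

end Pool.Agent.P.MP_52b1ec_lc
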