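import Pool.Agent.P.MP_52b1ec_lc.CZero
import Pool.Agent.P.MP_52b1ec_lc.Chain

namespace Pool.Agent.P.MP_52b1ec_lc

open Topology Filter Set MeasureTheory

/-- the ambient countable torsion group -/
abbrev QZ : Type := Multiplicative (AddCircle (1 : ℚ))

instance : Countable QZ :=
  (QuotientAddGroup.mk_surjective (s := AddSubgroup.zmultiples (1 : ℚ))).countable

lemma exists_orderOf {k : ℕ} (hk : 0 < k) : ∃ c : QZ, orderOf c = k := by
  have : Fact ((0 : ℚ) < 1) := ⟨one_pos⟩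
  exact ⟨Multiplicative.ofAdd (((1 : ℚ) / k : ℚ) : AddCircle (1 : ℚ)),
    AddCircle.addOrderOf_period_div hk⟩

/-- the prime attached to a label -/
noncomputable def pr (u : List Bool) : ℕ := Nat.nth Nat.Prime (Encodable.encode u)

lemma pr_prime (u : List Bool) : (pr u).Prime := Nat.prime_nth_prime _

lemma pr_inj : Function.Injective pr := fun _ _ h =>
  Encodable.encode_injective (Nat.nth_injective Nat.infinite_setOfPred_prime h)

/-- the filtration of an atom -/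
def NN (a : Atom) (m : ℕ) : Subgroup QZ where
  carrier := {c | c ^ (pr a.1 ^ a.n) = 1 ∧ ∀ i < a.n, a.t i < m → c ^ (pr a.1 ^ (a.n - (i + 1))) = 1}
  one_mem' := by simp
  mul_mem' := by
    rintro c d ⟨c1, c2⟩ ⟨d1, d2⟩
    exact ⟨by rw [mul_pow, c1, d1, one_mul], fun i hi h => by
      rw [mul_pow, c2 i hi h, d2 i hi h, one_mul]⟩
  inv_mem' := by
    rintro c ⟨c1, c2⟩
    exact ⟨by rw [inv_pow, c1, inv_one], fun i hi h => by rw [inv_pow, c2 i hi h, inv_one]⟩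

lemma mem_NN {a : Atom} {m : ℕ} {c : QZ} : c ∈ NN a m ↔ c ^ (pr a.1 ^ a.n) = 1 ∧
    ∀ i < a.n, a.t i < m → c ^ (pr a.1 ^ (a.n - (i + 1))) = 1 := Iff.rfl

lemma NN_anti (a : Atom) : Antitone (NN a) :=
  fun _ _ h _ hc => ⟨hc.1, fun i hi hm => hc.2 i hi (lt_of_lt_of_le hm h)⟩

lemma NN_bot (a : Atom) : ∃ M, NN a M = ⊥ := by
  refine ⟨a.t (a.n - 1) + 1, (Subgroup.eq_bot_iff_forall _).2 fun c hc => ?_⟩
  rcases Nat.eq_zero_or_pos a.n with h | h
  · have := hc.1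
    rwa [h, pow_zero, pow_one] at this
  · have := hc.2 (a.n - 1) (by omega) (Nat.lt_succ_self _)
    rwa [show a.n - (a.n - 1 + 1) = 0 by omega, pow_zero, pow_one] at this

lemma NN_zero {a b : Atom} (h : a.1 = b.1) : NN a 0 = NN b 0 := by
  ext c
  simp [mem_NN, Atom.n, h]

lemma NN_le {a b : Atom} (h : a.1 = b.1) {m m' : ℕ}
    (h2 : ∀ i < a.n, b.t i < m → a.t i < m') : NN a m' ≤ NN b m := by
  intro c hc
  have hn : b.n = a.n := by simp [Atom.n, h]
  rw [mem_NN, hn, ← h]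
  exact ⟨hc.1, fun i hi hm => hc.2 i hi (h2 i hi hm)⟩

variable {φ : (ℕ → ℕ) → K × K}

lemma uIso_of_range {x y : K} {z z' : ℕ → ℕ} (hz : φ z = (x, y)) (hz' : φ z' = (y, x)) :
    UIso (VV NN) (HS NN (SS φ x)) (HS NN (SS φ y)) := by
  obtain ⟨γ, σ, h⟩ := exists_equiv_of_range hz hz'
  refine uIso_of_equiv σ γ (fun a => NN_zero (h a).1) (fun a m => NN_le (h a).1 fun i hi => ?_)
    (fun a m => NN_le (h a).1.symm fun i hi => ?_)
  · exact ((h a).2 m i hi).2
  · have hn : (σ a).1.n = a.1.n := by simp [Atom.n, (h a).1]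
    exact ((h a).2 m i (hn ▸ hi)).1

lemma rel_of_uIso (hφ : Continuous φ) {E : K → K → Prop} (hE : Equivalence E)
    (hr : ∀ z, E (φ z).1 (φ z).2) {x y : K}
    (h : UIso (VV NN) (HS NN (SS φ x)) (HS NN (SS φ y))) : E x y := by
  obtain ⟨θ, -, h2⟩ := h
  choose γ hγ using h2
  refine rel_of_atoms hφ hE hr (α := fun i => γ (i + 1)) fun n => ?_
  set a := base x (n + 1) with ha
  have an : a.n = n + 1 := base_n x (n + 1)
  have hp := pr_prime a.1
  obtain ⟨c0, hc0⟩ := exists_orderOf (k := pr a.1 ^ (n + 1)) (pow_pos hp.pos _)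
  have hc0m : c0 ∈ NN a 0 := by
    refine ⟨?_, fun i _ h => (Nat.not_lt_zero _ h).elim⟩
    rw [an, ← hc0, pow_orderOf_eq_one]
  have hc0r : c0 ^ (pr a.1 ^ n) ≠ 1 := by
    intro e
    have := orderOf_dvd_of_pow_eq_one e
    rw [hc0, Nat.pow_dvd_pow_iff_le_right hp.one_lt] at this
    omega
  obtain ⟨b, hb, ψ, ψ0, ψ1, c, hc⟩ := extract NN_bot θ.symm.toMonoidHom θ.symm.surjective γ hγ
    (base_mem x (n + 1)) ⟨c0, hc0m⟩ (pr a.1 ^ n) hc0r
  have e1 : ψ c ^ (pr a.1 ^ (n + 1)) = 1 := by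
    have := (ψ0 c).1
    rwa [an] at this
  have e2 : c ^ (pr b.1 ^ b.n) = 1 := Subtype.ext c.2.1
  have hlab : b.1 = a.1 := by
    by_contra hne
    have hcop : Nat.Coprime (pr a.1 ^ (n + 1)) (pr b.1 ^ b.n) :=
      Nat.coprime_pow_primes _ _ hp (pr_prime _) fun e => hne (pr_inj e).symm
    have e3 : ψ c ^ (pr b.1 ^ b.n) = 1 := by rw [← map_pow, e2, map_one]
    have e4 : ψ c = 1 := by
      rw [← orderOf_eq_one_iff]
      exact Nat.eq_one_of_dvd_coprimes hcop (orderOf_dvd_of_pow_eq_one e1)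
        (orderOf_dvd_of_pow_eq_one e3)
    exact hc (by rw [e4, one_pow])
  have bn : b.n = n + 1 := by rw [← an]; simp only [Atom.n, hlab]
  refine ⟨b, hb, hlab, fun i hi => ?_⟩
  by_contra hcon
  push Not at hcon
  have hmem : (c ^ (pr a.1 ^ i)).1 ∈ NN b (γ (i + 1)) := by
    refine ⟨(c ^ (pr a.1 ^ i)).2.1, fun j hj hjt => ?_⟩
    have hji : j < i := by
      by_contra hge
      push Not at hge
      rcases hge.eq_or_lt with e | e
      · rw [← e] at hjt; omega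
      · have := hb.2.1 i j e hj; omega
    have e5 : c.1 ^ (pr b.1 ^ b.n) = 1 := c.2.1
    rw [Subgroup.coe_pow, ← pow_mul, hlab, ← pow_add]
    rw [hlab] at e5
    obtain ⟨d, hd⟩ : ∃ d, i + (b.n - (j + 1)) = b.n + d := ⟨i - (j + 1), by omega⟩
    rw [hd, pow_add, pow_mul, e5, one_pow]
  have := (ψ1 (i + 1) _ hmem).2 i (by rw [base_n]; exact hi) (by rw [base_t x (n + 1) hi]; omega)
  rw [map_pow, ← pow_mul, ← pow_add, an, show i + (n + 1 - (i + 1)) = n by omega] at this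
  exact hc this

theorem exists_reduction_K (hφ : Continuous φ) {E : K → K → Prop} (hE : Equivalence E)
    (hr : ∀ z, E (φ z).1 (φ z).2) (hs : ∀ x y, E x y → x = y ∨ ∃ z, φ z = (x, y)) :
    ∃ f : K → CS, Measurable f ∧ (∀ x, f x ∈ Abelian) ∧ ∀ x y, E x y ↔ TopIso (f x) (f y) := by
  obtain ⟨ρ, hρ⟩ := exists_rep (VV NN) (VV_anti NN_anti) countable_quot
  have hi := hρ.injective (VV_sep NN_bot)
  refine ⟨fun x => ⟨(HS NN (SS φ x)).map ρ, hρ.isClosed _ (HS_complete NN_bot _)⟩, ?_, ?_, ?_⟩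
  · refine measurable_CS fun U hU => ?_
    exact measurable_HS hρ (SS φ) (fun a => (isOpen_SS a).measurableSet) hU
  · rintro x _ ⟨a, -, rfl⟩ _ ⟨b, -, rfl⟩
    rw [← map_mul, ← map_mul, mul_comm]
  · intro x y
    constructor
    · intro h
      rcases hs x y h with rfl | ⟨z, hz⟩
      · exact topIso_equivalence.refl _
      · rcases hs y x (hE.symm h) with rfl | ⟨z', hz'⟩
        · exact topIso_equivalence.refl _
        · exact (hρ.iso_iff hi _ _).2 (uIso_of_range hz hz')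
    · intro h
      exact rel_of_uIso hφ hE hr ((hρ.iso_iff hi _ _).1 h)

theorem borelRed_isoOn {C : Set CS} (hC : Abelian ⊆ C) (X : Type) [MeasurableSpace X]
    [StandardBorelSpace X] (F : X → X → Prop) (hF : IsAnalyticEqv F) : BorelRed F (IsoOn C) := by
  obtain ⟨hF, B, hB, hFB⟩ := hF
  rcases isEmpty_or_nonempty X with hX | ⟨⟨x0⟩⟩
  · exact ⟨isEmptyElim, measurable_of_empty _, fun x => isEmptyElim x⟩
  obtain ⟨e, he, hinj⟩ := MeasurableSpace.measurable_injection_nat_bool_of_countablySeparated X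
  have hA : AnalyticSet ((fun p : (X × X) × (ℕ → ℕ) => (e p.1.1, e p.1.2)) '' B) :=
    hB.analyticSet_image (by fun_prop)
  rw [AnalyticSet] at hA
  rcases hA with hA | ⟨φ, hφ, hA⟩
  · obtain ⟨z, hz⟩ := (hFB x0 x0).1 (hF.refl x0)
    rw [image_eq_empty] at hA
    rw [hA] at hz
    exact hz.elim
  let E : K → K → Prop := fun a b => a = b ∨ ∃ x y, F x y ∧ e x = a ∧ e y = b
  have hE : Equivalence E := by
    refine ⟨fun a => Or.inl rfl, ?_, ?_⟩
    · rintro a b (h | ⟨x, y, h, rfl, rfl⟩)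
      · exact Or.inl h.symm
      · exact Or.inr ⟨y, x, hF.symm h, rfl, rfl⟩
    · rintro a b c (rfl | ⟨x, y, h, rfl, rfl⟩) h2
      · exact h2
      · rcases h2 with rfl | ⟨x', y', h', h3, rfl⟩
        · exact Or.inr ⟨x, y, h, rfl, rfl⟩
        · rw [hinj h3] at h'
          exact Or.inr ⟨x, y', hF.trans h h', rfl, rfl⟩
  obtain ⟨f, hf, hab, hiff⟩ := exists_reduction_K hφ hE (by
    intro z
    have : φ z ∈ range φ := mem_range_self z
    rw [hA] at this
    obtain ⟨⟨⟨x, y⟩, w⟩, hw, hz⟩ := this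
    exact Or.inr ⟨x, y, (hFB x y).2 ⟨w, hw⟩, congrArg Prod.fst hz, congrArg Prod.snd hz⟩) (by
    rintro a b (h | ⟨x, y, h, rfl, rfl⟩)
    · exact Or.inl h
    · obtain ⟨w, hw⟩ := (hFB x y).1 h
      right
      show (e x, e y) ∈ range φ
      rw [hA]
      exact ⟨_, hw, rfl⟩)
  refine ⟨fun x => ⟨f (e x), hC (hab _)⟩, (hf.comp he).subtype_mk, fun x y => ?_⟩
  show _ ↔ TopIso (f (e x)) (f (e y))
  rw [← hiff]
  constructor
  · intro h
    exact Or.inr ⟨x, y, h, rfl, rfl⟩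
  · rintro (h | ⟨x', y', h, h1, h2⟩)
    · rw [hinj h]; exact hF.refl y
    · rwa [← hinj h1, ← hinj h2]

end Pool.Agent.P.MP_52b1ec_lc
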