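import Pool.Agent.P.MP_52b1ec_lc.NotGraph
import Pool.Agent.P.MP_52b1ec_lc.Reduction

namespace Pool.Agent.P.MP_52b1ec_lc

theorem analyticComplete_isoOn {C : Set CS} (hC : Abelian ⊆ C) : AnalyticComplete (IsoOn C) :=
  ⟨isAnalyticEqv_isoOn C, fun X _ _ F hF => borelRed_isoOn hC X F hF⟩

theorem main_abelian : MeasurableSet Abelian ∧ Invariant Abelian ∧
    AnalyticComplete (IsoOn Abelian) ∧ ¬ BorelRed (IsoOn Abelian) GraphIso :=
  ⟨measurableSet_abelian, invariant_abelian, analyticComplete_isoOn subset_rfl,
    (analyticComplete_isoOn subset_rfl).not_borelRed⟩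

theorem main_proCountable : MeasurableSet ProCountable ∧ Invariant ProCountable ∧
    AnalyticComplete (IsoOn ProCountable) ∧ ¬ BorelRed (IsoOn ProCountable) GraphIso :=
  ⟨measurableSet_proCountable, invariant_proCountable,
    analyticComplete_isoOn abelian_subset_proCountable,
    (analyticComplete_isoOn abelian_subset_proCountable).not_borelRed⟩

end Pool.Agent.P.MP_52b1ec_lc
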