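import Pool.Agent.P.MP_52b1ec_lc.Analytic

namespace Pool.Agent.P.MP_52b1ec_lc

open Topology Filter Set MeasureTheory

lemma exists_lexLeast {C : Set (ℕ → ℕ)} (hC : IsClosed C) (hne : C.Nonempty) :
    ∃ x ∈ C, ∀ y ∈ C, ∀ n, (∀ i < n, y i = x i) → x n ≤ y n := by
  let F : ℕ → Set (ℕ → ℕ) := fun n => Nat.rec C
    (fun n S => {y ∈ S | y n = sInf ((fun y : ℕ → ℕ => y n) '' S)}) n
  let x : ℕ → ℕ := fun n => sInf ((fun y : ℕ → ℕ => y n) '' F n)
  have hF : ∀ n y, y ∈ F (n + 1) ↔ y ∈ F n ∧ y n = x n := fun n y => Iff.rfl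
  have h1 : ∀ n y, y ∈ F n ↔ y ∈ C ∧ ∀ i < n, y i = x i := by
    intro n
    induction n with
    | zero => intro y; simp [F]
    | succ n ih =>
      intro y
      rw [hF, ih]
      constructor
      · rintro ⟨⟨h1, h2⟩, h3⟩
        refine ⟨h1, fun i hi => ?_⟩
        rcases (Nat.lt_succ_iff.1 hi).eq_or_lt with rfl | h
        · exact h3
        · exact h2 i h
      · rintro ⟨h1, h2⟩
        exact ⟨⟨h1, fun i hi => h2 i (Nat.lt_succ_of_lt hi)⟩, h2 n (Nat.lt_succ_self n)⟩
  have h2 : ∀ n, (F n).Nonempty := by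
    intro n
    induction n with
    | zero => exact hne
    | succ n ih =>
      obtain ⟨y, hy, hy'⟩ := Nat.sInf_mem (ih.image (fun y : ℕ → ℕ => y n))
      exact ⟨y, (hF n y).2 ⟨hy, hy'⟩⟩
  refine ⟨x, ?_, fun y hy n hn => Nat.sInf_le ⟨y, (h1 n y).2 ⟨hy, hn⟩, rfl⟩⟩
  rw [← hC.closure_eq, mem_closure_iff_nhds]
  intro t ht
  obtain ⟨n, hn⟩ := baire_mem_nhds.1 ht
  obtain ⟨y, hy⟩ := h2 n
  exact ⟨y, hn y ((h1 n y).1 hy).2, ((h1 n y).1 hy).1⟩

lemma exists_closedEmbedding : ∃ c : SInf → (ℕ → ℕ), IsClosedEmbedding c := by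
  let e1 : (ℕ → ℕ) × (ℕ → ℕ) ≃ₜ (ℕ ⊕ ℕ → ℕ) := Homeomorph.sumArrowHomeomorphProdArrow.symm
  let e2 : (ℕ ⊕ ℕ → ℕ) ≃ₜ (ℕ → ℕ) :=
    Homeomorph.piCongrLeft (Y := fun _ => ℕ) Equiv.natSumNatEquivNat
  exact ⟨_, (e1.trans e2).isClosedEmbedding.comp isClosedEmbedding_pair⟩

/-- relabelling of a relation -/
def act (R : ℕ → ℕ → Prop) (σ : SInf) : ℕ → ℕ → Prop := fun i j => R (ap σ i) (ap σ j)

lemma isClopen_act (R : ℕ → ℕ → Prop) (i j : ℕ) (P : Prop → Prop) :
    IsClopen {σ : SInf | P (act R σ i j)} :=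
  (isClopen_discrete {p : ℕ × ℕ | P (R p.1 p.2)}).preimage
    ((continuous_ap_at i).prodMk (continuous_ap_at j))

lemma measurableSet_range_act (R : ℕ → ℕ → Prop) : MeasurableSet (range (act R)) := by
  obtain ⟨c, hc⟩ := exists_closedEmbedding
  let T : Set SInf := ⋂ n : ℕ, ⋂ a : SInf, ⋂ (_ : act R a = R),
    {τ | (∀ i < n, c (a * τ) i = c τ i) → c τ n ≤ c (a * τ) n}
  have hT : IsClosed T := by
    refine isClosed_iInter fun n => isClosed_iInter fun a => isClosed_iInter fun _ => ?_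
    have h1 : Continuous (fun τ : SInf => ((fun i : Fin (n + 1) => c (a * τ) i),
        (fun i : Fin (n + 1) => c τ i))) := by
      have := hc.continuous
      fun_prop
    have := (isClosed_discrete {p : (Fin (n + 1) → ℕ) × (Fin (n + 1) → ℕ) |
      (∀ i (hi : i < n), p.1 ⟨i, Nat.lt_succ_of_lt hi⟩ = p.2 ⟨i, Nat.lt_succ_of_lt hi⟩) →
        p.2 ⟨n, Nat.lt_succ_self n⟩ ≤ p.1 ⟨n, Nat.lt_succ_self n⟩}).preimage h1
    exact this
  have haut : ∀ σ τ : SInf, act R σ = act R τ → act R (σ * τ⁻¹) = R := by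
    intro σ τ h
    funext i j
    have := congrFun (congrFun h (ap τ⁻¹ i)) (ap τ⁻¹ j)
    simpa [act] using this
  have hmem : ∀ τ, τ ∈ T ↔ ∀ σ, act R σ = act R τ → ∀ n, (∀ i < n, c σ i = c τ i) →
      c τ n ≤ c σ n := by
    intro τ
    simp only [T, mem_iInter, mem_ofPred_eq]
    constructor
    · intro h σ hσ n
      have := h n _ (haut σ τ hσ)
      rwa [inv_mul_cancel_right] at this
    · intro h n a ha
      refine h (a * τ) ?_ n
      funext i j
      exact congrFun (congrFun ha (ap τ i)) (ap τ j)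
  have hinj : InjOn (act R) T := by
    intro σ hσ τ hτ h
    apply hc.injective
    funext n
    induction n using Nat.strong_induction_on with
    | _ n ih =>
      exact le_antisymm ((hmem σ).1 hσ τ h.symm n fun i hi => (ih i hi).symm)
        ((hmem τ).1 hτ σ h n ih)
  have hrange : range (act R) = act R '' T := by
    refine Subset.antisymm ?_ (image_subset_range _ _)
    rintro _ ⟨σ, rfl⟩
    have hcl : IsClosed {τ : SInf | act R τ = act R σ} := by
      have : {τ : SInf | act R τ = act R σ} =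
          ⋂ i, ⋂ j, {τ : SInf | act R τ i j = act R σ i j} := by
        ext τ
        simp only [mem_ofPred_eq, mem_iInter, funext_iff]
      rw [this]
      exact isClosed_iInter fun i => isClosed_iInter fun j =>
        (isClopen_act R i j (fun p => p = act R σ i j)).isClosed
    obtain ⟨_, ⟨τ, hτ, rfl⟩, hl⟩ := exists_lexLeast (hc.isClosedMap _ hcl) ⟨c σ, σ, rfl, rfl⟩
    exact ⟨τ, (hmem τ).2 fun σ' hσ' => hl _ ⟨σ', hσ'.trans hτ, rfl⟩, hτ⟩
  borelize SInf
  rw [hrange]
  refine hT.measurableSet.image_of_measurable_injOn ?_ hinj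
  refine measurable_pi_iff.2 fun i => measurable_pi_iff.2 fun j => ?_
  rw [← measurableSet_setOfPred]
  exact (isClopen_act R i j id).isOpen.measurableSet

lemma measurableSet_graphIso (A : SimpleGraph ℕ) : MeasurableSet {B | GraphIso B A} := by
  have : {B | GraphIso B A} = SimpleGraph.Adj ⁻¹' (range (act A.Adj)) := by
    ext B
    constructor
    · rintro ⟨e⟩
      refine ⟨SInf.ofPerm e.toEquiv, ?_⟩
      funext i j
      exact propext e.map_rel_iff'
    · rintro ⟨σ, hσ⟩
      exact ⟨⟨σ.toPerm, fun {i j} => Iff.of_eq (congrFun (congrFun hσ i) j)⟩⟩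
  rw [this]
  exact SimpleGraph.measurable_adj (measurableSet_range_act _)

/-! ### An analytic set which is not Borel -/

abbrev Idx2 : Type := Σ n : ℕ, (Fin n → Bool) × (Fin n → ℕ)

noncomputable def cd2 : Idx2 → ℕ := Classical.choose (exists_injective_nat Idx2)

lemma cd2_inj : Function.Injective cd2 := Classical.choose_spec (exists_injective_nat Idx2)

def WW : Set ((ℕ → Bool) × (ℕ → ℕ)) :=
  {p | ∀ n, p.1 (cd2 ⟨n, fun i => p.1 i, fun i => p.2 i⟩) = true}

lemma isClosed_WW : IsClosed WW := by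
  simp only [WW, ofPred_forall]
  refine isClosed_iInter fun n => isClosed_eq ?_ continuous_const
  have h0 : Continuous (fun p : (ℕ → Bool) × ℕ => p.1 p.2) := by
    rw [continuous_prod_of_discrete_right]
    intro n
    exact continuous_apply n
  have h1 : Continuous (fun p : (ℕ → Bool) × (ℕ → ℕ) =>
      ((fun i : Fin n => p.1 i), (fun i : Fin n => p.2 i))) := by fun_prop
  have h2 : Continuous (fun s : (Fin n → Bool) × (Fin n → ℕ) => cd2 ⟨n, s⟩) :=
    continuous_of_discreteTopology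
  exact h0.comp (continuous_fst.prodMk (h2.comp h1))

def DD : Set (ℕ → Bool) := {x | ∃ z, (x, z) ∈ WW}

lemma not_measurableSet_DD : ¬ MeasurableSet DD := by
  classical
  intro h
  have hA := h.compl.analyticSet_image (f := id) measurable_id
  rw [image_id] at hA
  rw [AnalyticSet] at hA
  rcases hA with hA | ⟨ψ, hψ, hA⟩
  · have : (fun _ => false) ∈ DDᶜ := by
      rintro ⟨z, hz⟩
      simpa using hz 0
    rw [hA] at this
    exact this
  · let V : Idx2 → Bool := fun p =>
      decide (∃ w : ℕ → ℕ, (∀ i : Fin p.1, w i = p.2.2 i) ∧ ∀ i : Fin p.1, ψ w i = p.2.1 i)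
    let x : ℕ → Bool := Function.extend cd2 V (fun _ => false)
    have hx : ∀ p, x (cd2 p) = V p := fun p => cd2_inj.extend_apply _ _ _
    have key : x ∈ DD ↔ x ∈ range ψ := by
      constructor
      · rintro ⟨z, hz⟩
        have h1 : ∀ n, ∃ w : ℕ → ℕ, (∀ i : Fin n, w i = z i) ∧ ∀ i : Fin n, ψ w i = x i := by
          intro n
          have := hz n
          simp only [hx, V, decide_eq_true_eq] at this
          exact this
        choose w hw1 hw2 using h1
        refine ⟨z, ?_⟩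
        have t1 : Tendsto w atTop (𝓝 z) := by
          rw [tendsto_pi_nhds]
          intro i
          exact tendsto_const_nhds.congr'
            ((eventually_gt_atTop i).mono fun n hn => (hw1 n ⟨i, hn⟩).symm)
        have t2 : Tendsto (fun n => ψ (w n)) atTop (𝓝 x) := by
          rw [tendsto_pi_nhds]
          intro i
          exact tendsto_const_nhds.congr'
            ((eventually_gt_atTop i).mono fun n hn => (hw2 n ⟨i, hn⟩).symm)
        exact tendsto_nhds_unique ((hψ.tendsto z).comp t1) t2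
      · rintro ⟨z, hz⟩
        refine ⟨z, fun n => ?_⟩
        simp only [hx, V, decide_eq_true_eq]
        exact ⟨z, fun _ => rfl, fun i => by rw [hz]⟩
    rw [hA, mem_compl_iff] at key
    exact iff_not_self key

def EE (x y : ℕ → Bool) : Prop := x = y ∨ (x ∈ DD ∧ y ∈ DD)

lemma isAnalyticEqv_EE : IsAnalyticEqv EE := by
  refine ⟨⟨fun x => Or.inl rfl, ?_, ?_⟩, {p | p.1.1 = p.1.2} ∪
    ({p | (p.1.1, fun n => p.2 (2 * n)) ∈ WW} ∩ {p | (p.1.2, fun n => p.2 (2 * n + 1)) ∈ WW}),
    ?_, ?_⟩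
  · rintro x y (h | h)
    · exact Or.inl h.symm
    · exact Or.inr h.symm
  · rintro x y z (rfl | h) h'
    · exact h'
    · rcases h' with rfl | h'
      · exact Or.inr h
      · exact Or.inr ⟨h.1, h'.2⟩
  · refine IsClosed.measurableSet (IsClosed.union (isClosed_eq (by fun_prop) (by fun_prop))
      (IsClosed.inter (isClosed_WW.preimage (f := fun p : ((ℕ → Bool) × (ℕ → Bool)) × (ℕ → ℕ) =>
        (p.1.1, fun n => p.2 (2 * n))) (by fun_prop))
        (isClosed_WW.preimage (f := fun p : ((ℕ → Bool) × (ℕ → Bool)) × (ℕ → ℕ) =>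
        (p.1.2, fun n => p.2 (2 * n + 1))) (by fun_prop))))
  · intro x y
    constructor
    · rintro (h | ⟨⟨z, hz⟩, ⟨z', hz'⟩⟩)
      · exact ⟨fun _ => 0, Or.inl h⟩
      · refine ⟨fun n => if n % 2 = 0 then z (n / 2) else z' (n / 2), Or.inr ⟨?_, ?_⟩⟩
        · have : (fun n => if (2 * n) % 2 = 0 then z ((2 * n) / 2) else z' ((2 * n) / 2)) = z := by
            funext n; simp
          show (x, fun n => if (2 * n) % 2 = 0 then z ((2 * n) / 2) else z' ((2 * n) / 2)) ∈ WW
          rwa [this]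
        · have : (fun n => if (2 * n + 1) % 2 = 0 then z ((2 * n + 1) / 2)
              else z' ((2 * n + 1) / 2)) = z' := by
            funext n
            rw [if_neg (by omega), show (2 * n + 1) / 2 = n by omega]
          show (y, fun n => if (2 * n + 1) % 2 = 0 then z ((2 * n + 1) / 2)
              else z' ((2 * n + 1) / 2)) ∈ WW
          rwa [this]
    · rintro ⟨z, h | ⟨h1, h2⟩⟩
      · exact Or.inl h
      · exact Or.inr ⟨⟨_, h1⟩, ⟨_, h2⟩⟩

lemma not_borelRed_EE : ¬ BorelRed EE GraphIso := by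
  rintro ⟨f, hf, h⟩
  apply not_measurableSet_DD
  rcases DD.eq_empty_or_nonempty with e | ⟨a, ha⟩
  · rw [e]; exact MeasurableSet.empty
  · have : DD = f ⁻¹' {B | GraphIso B (f a)} := by
      ext x
      rw [mem_preimage, mem_ofPred_eq, ← h]
      constructor
      · intro hx; exact Or.inr ⟨hx, ha⟩
      · rintro (rfl | hx)
        · exact ha
        · exact hx.1
    rw [this]
    exact hf (measurableSet_graphIso _)

theorem AnalyticComplete.not_borelRed {Y : Type} [MeasurableSpace Y] {E : Y → Y → Prop}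
    (hE : AnalyticComplete E) : ¬ BorelRed E GraphIso := by
  rintro ⟨g, hg, h⟩
  obtain ⟨f, hf, h'⟩ := hE.2 (ℕ → Bool) EE isAnalyticEqv_EE
  exact not_borelRed_EE ⟨g ∘ f, hg.comp hf, fun x y => (h' x y).trans (h _ _)⟩

end Pool.Agent.P.MP_52b1ec_lc
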