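import Pool.Agent.P.MP_52b1ec_lc.Effros

namespace Pool.Agent.P.MP_52b1ec_lc

open Topology Filter Set

variable {Γ : Type} [CommGroup Γ]

/-- a representation whose induced topology has the given subgroups as a base -/
structure IsRep (V : ℕ → Subgroup Γ) (ρ : Γ →* SInf) : Prop where
  h1 : ∀ m, ∃ n, ∀ g, (∀ i < n, ap (ρ g) i = i) → g ∈ V m
  h2 : ∀ n, ∃ m, ∀ g ∈ V m, ∀ i < n, ap (ρ g) i = i

theorem exists_rep (V : ℕ → Subgroup Γ) (hV : Antitone V) (hc : ∀ m, Countable (Γ ⧸ V m)) :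
    ∃ ρ : Γ →* SInf, IsRep V ρ := by
  let Ω : Type := Σ m : ℕ, Γ ⧸ V m
  have : Countable Ω := inferInstance
  have : Infinite Ω := Infinite.of_injective (fun m : ℕ => (⟨m, (1 : Γ ⧸ V m)⟩ : Ω))
    (fun a b h => congrArg Sigma.fst h)
  obtain ⟨e⟩ : Nonempty (Ω ≃ ℕ) := nonempty_equiv_of_countable
  let ρ : Γ →* Equiv.Perm ℕ := (e.permCongrHom : Equiv.Perm Ω →* Equiv.Perm ℕ).comp
    (MulAction.toPermHom Γ Ω)
  have hρ : ∀ g j, ap (ρ g) j = e (g • e.symm j) := fun g j => rfl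
  have key : ∀ (g : Γ) (ω : Ω), g • ω = ω ↔ g ∈ V ω.1 := by
    rintro g ⟨m, q⟩
    induction q using QuotientGroup.induction_on with
    | H x =>
      rw [Sigma.smul_mk, Sigma.mk.inj_iff]
      simp only [true_and, heq_eq_eq]
      rw [MulAction.Quotient.smul_mk, QuotientGroup.eq, smul_eq_mul]
      have : (g * x)⁻¹ * x = g⁻¹ := by rw [mul_inv, mul_assoc, inv_mul_cancel, mul_one]
      rw [this, inv_mem_iff]
  have key2 : ∀ g j, ap (ρ g) j = j ↔ g ∈ V (e.symm j).1 := by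
    intro g j
    rw [hρ, ← key, ← e.eq_symm_apply]
  refine ⟨ρ, fun m => ⟨e ⟨m, 1⟩ + 1, fun g hg => ?_⟩, fun n => ?_⟩
  · have := (key2 g _).1 (hg _ (Nat.lt_succ_self _))
    rwa [e.symm_apply_apply] at this
  · refine ⟨(Finset.range n).sup (fun j => (e.symm j).1), fun g hg i hi => (key2 g i).2 ?_⟩
    exact hV (Finset.le_sup (f := fun j => (e.symm j).1) (Finset.mem_range.2 hi)) hg

variable {V : ℕ → Subgroup Γ} {ρ : Γ →* SInf}

lemma agree_iff (g h : Γ) (n : ℕ) :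
    (∀ i < n, ap (ρ (g⁻¹ * h)) i = i) ↔ ∀ i < n, ap (ρ h) i = ap (ρ g) i := by
  refine forall₂_congr fun i _ => ?_
  rw [map_mul, map_inv, ap_mul]
  constructor
  · intro e
    have := congrArg (ap (ρ g)) e
    rwa [ap_ap_inv] at this
  · intro e
    rw [e, ap_inv_ap]

lemma IsRep.injective (hρ : IsRep V ρ) (hb : ∀ g, (∀ m, g ∈ V m) → g = 1) :
    Function.Injective ρ := by
  rw [injective_iff_map_eq_one]
  intro g hg
  refine hb g fun m => ?_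
  obtain ⟨n, hn⟩ := hρ.h1 m
  exact hn g fun i _ => by rw [hg]; rfl

lemma IsRep.isClosed (hρ : IsRep V ρ) (H : Subgroup Γ)
    (hH : ∀ h : ℕ → Γ, (∀ m, h m ∈ H) → (∀ m m', m ≤ m' → (h m)⁻¹ * h m' ∈ V m) →
      ∃ g ∈ H, ∀ m, g⁻¹ * h m ∈ V m) : IsClosed ((H.map ρ : Subgroup SInf) : Set SInf) := by
  apply isClosed_of_closure_subset
  intro σ hσ
  rw [SInf_mem_closure] at hσ
  have hσ' : ∀ n, ∃ h ∈ H, ∀ i < n, ap (ρ h) i = ap σ i := by
    intro n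
    obtain ⟨_, ⟨h, hh, rfl⟩, hh'⟩ := hσ n
    exact ⟨h, hh, hh'⟩
  choose k hk hk' using hσ'
  choose nn hnn using hρ.h1
  let N : ℕ → ℕ := fun m => (Finset.range (m + 1)).sup nn
  have hN : ∀ m m', m ≤ m' → nn m ≤ N m' := fun m m' h =>
    Finset.le_sup (f := nn) (Finset.mem_range.2 (Nat.lt_succ_of_le h))
  have hkk : ∀ m a b, nn m ≤ a → nn m ≤ b → (k a)⁻¹ * k b ∈ V m := by
    intro m a b ha hb
    apply hnn m
    rw [agree_iff]
    intro i hi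
    rw [hk' a i (lt_of_lt_of_le hi ha), hk' b i (lt_of_lt_of_le hi hb)]
  obtain ⟨g, hg, hg'⟩ := hH (fun m => k (N m)) (fun m => hk _)
    (fun m m' h => hkk m _ _ (hN m m le_rfl) (hN m m' h))
  refine ⟨g, hg, ?_⟩
  apply ap_injective
  funext j
  obtain ⟨m, hm⟩ := hρ.h2 (j + 1)
  have h1 : g⁻¹ * k (max (nn m) (j + 1)) ∈ V m := by
    have := (V m).mul_mem (hg' m) (hkk m _ (max (nn m) (j + 1)) (hN m m le_rfl) (le_max_left _ _))
    simpa [mul_assoc] using this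
  have h2 := (agree_iff _ _ _).1 (hm _ h1) j (Nat.lt_succ_self j)
  rw [← h2, hk' _ j (lt_of_lt_of_le (Nat.lt_succ_self j) (le_max_right _ _))]

lemma IsRep.cont_iff (hρ : IsRep V ρ) {H H' : Subgroup Γ} (θ : H →* H')
    (Θ : (H.map ρ) →* (H'.map ρ))
    (hΘ : ∀ g : H, (Θ ⟨ρ g, Subgroup.mem_map_of_mem _ g.2⟩).1 = ρ (θ g)) :
    Continuous Θ ↔ ∀ m, ∃ m', ∀ g : H, g.1 ∈ V m' → (θ g).1 ∈ V m := by
  rw [hom_continuous_iff]
  constructor
  · intro h m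
    obtain ⟨n, hn⟩ := hρ.h1 m
    obtain ⟨n', hn'⟩ := h n
    obtain ⟨m', hm'⟩ := hρ.h2 n'
    refine ⟨m', fun g hg => hn _ ?_⟩
    rw [← hΘ]
    exact hn' ⟨ρ g, Subgroup.mem_map_of_mem _ g.2⟩ (hm' _ hg)
  · intro h n
    obtain ⟨m, hm⟩ := hρ.h2 n
    obtain ⟨m', hm'⟩ := h m
    obtain ⟨n', hn'⟩ := hρ.h1 m'
    refine ⟨n', ?_⟩
    rintro ⟨_, g, hg, rfl⟩ hfix
    have := hΘ ⟨g, hg⟩
    simp only at this
    rw [this]
    exact hm _ (hm' ⟨g, hg⟩ (hn' _ hfix))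

/-- isomorphism with moduli of continuity -/
def UIso (V : ℕ → Subgroup Γ) (H H' : Subgroup Γ) : Prop :=
  ∃ θ : H ≃* H', (∀ m, ∃ m', ∀ g : H, g.1 ∈ V m' → (θ g).1 ∈ V m) ∧
    (∀ m, ∃ m', ∀ g : H', g.1 ∈ V m' → (θ.symm g).1 ∈ V m)

lemma IsRep.iso_iff (hρ : IsRep V ρ) (hi : Function.Injective ρ) (H H' : Subgroup Γ) :
    Nonempty ((H.map ρ) ≃ₜ* (H'.map ρ)) ↔ UIso V H H' := by
  let e := H.equivMapOfInjective ρ hi
  let e' := H'.equivMapOfInjective ρ hi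
  have he : ∀ g : H, (⟨ρ g, Subgroup.mem_map_of_mem _ g.2⟩ : H.map ρ) = e g := fun g => rfl
  have he' : ∀ g : H', (⟨ρ g, Subgroup.mem_map_of_mem _ g.2⟩ : H'.map ρ) = e' g := fun g => rfl
  have hv : ∀ g : H, ρ g = (e g).1 := fun g => rfl
  have hv' : ∀ g : H', ρ g = (e' g).1 := fun g => rfl
  constructor
  · rintro ⟨Θ⟩
    refine ⟨e.trans (Θ.toMulEquiv.trans e'.symm), ?_, ?_⟩
    · refine (hρ.cont_iff (e.trans (Θ.toMulEquiv.trans e'.symm)).toMonoidHom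
        (Θ : (H.map ρ) →* (H'.map ρ)) fun g => ?_).1 (map_continuous Θ)
      rw [he, hv']
      simp
      rfl
    · refine (hρ.cont_iff (e.trans (Θ.toMulEquiv.trans e'.symm)).symm.toMonoidHom
        (Θ.symm : (H'.map ρ) →* (H.map ρ)) fun g => ?_).1 (map_continuous Θ.symm)
      rw [he', hv]
      simp
      rfl
  · rintro ⟨θ, h1, h2⟩
    refine ⟨{ toMulEquiv := e.symm.trans (θ.trans e'), continuous_toFun := ?_,
              continuous_invFun := ?_ }⟩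
    · refine (hρ.cont_iff θ.toMonoidHom (e.symm.trans (θ.trans e')).toMonoidHom fun g => ?_).2 h1
      rw [he, hv']
      simp
    · refine (hρ.cont_iff θ.symm.toMonoidHom (e.symm.trans (θ.trans e')).symm.toMonoidHom
        fun g => ?_).2 h2
      rw [he', hv]
      simp

end Pool.Agent.P.MP_52b1ec_lc
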